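import Pool.Agent.KNL.LangDefs
import Pool.Agent.Lib.PolyTime.PF

/-! The language is decided in polynomial time. -/

namespace Pool.Agent.KNL

open Pool.Agent.PolyTime

section
variable {α : Type} [Ctx α]

theorem pf_bit {A : List Bool → α → ℕ} (hA : PF A) : PF (fun x a => bit x (A x a)) := hA.inp

theorem pf_run {A : List Bool → α → ℕ} (hA : PF A) : PF (fun x a => run x (A x a)) := by
  classical
  have hP : PD (fun (x : List Bool) (p : α × ℕ) => ∀ i' < p.2 + 1, bit x (A x p.1 + i') = 1) :=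
    PD.forall_lt (B := fun _ (p : α × ℕ) => p.2 + 1)
      (P := fun x (p : (α × ℕ) × ℕ) => bit x (A x p.1.1 + p.2) = 1)
      (PF.snd.add (PF.const 1)) (PD.eq (pf_bit (hA.fst.fst.add PF.snd)) (PF.const 1))
  refine (PF.count PF.len hP).congr fun x a => ?_
  unfold run
  congr 1
  ext i
  simp only [Finset.mem_filter, Nat.lt_succ_iff]

theorem pf_pT : PF (fun x (_ : α) => pT x) := pf_run (PF.const 0)

theorem pf_pS : PF (fun x (_ : α) => pS x) := pf_run (pf_pT.add (PF.const 1))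

theorem pf_off0 : PF (fun x (_ : α) => off0 x) := (pf_pT.add pf_pS).add (PF.const 2)

theorem pf_pn : PF (fun x (_ : α) => pn x) := (PF.len.sub pf_off0).div ((PF.const 5).mul pf_pT)

theorem pf_pm : PF (fun x (_ : α) => pm x) := pf_pn.div pf_pS

theorem pf_posA {Q I : List Bool → α → ℕ} (hQ : PF Q) (hI : PF I) :
    PF (fun x a => posA x (Q x a) (I x a)) :=
  (pf_off0.add (hQ.mul ((PF.const 2).mul pf_pn))).add hI

theorem pf_posG {J U : List Bool → α → ℕ} (hJ : PF J) (hU : PF U) :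
    PF (fun x a => posG x (J x a) (U x a)) :=
  ((pf_off0.add (pf_pT.mul ((PF.const 2).mul pf_pn))).add (hJ.mul pf_pT)).add hU

theorem pf_posX {B I : List Bool → α → ℕ} (hB : PF B) (hI : PF I) :
    PF (fun x a => posX x (B x a) (I x a)) :=
  (((pf_off0.add (pf_pT.mul ((PF.const 2).mul pf_pn))).add (pf_pm.mul pf_pT)).add
    (hB.mul (pf_pn.add pf_pm))).add hI

theorem pf_posS {B J : List Bool → α → ℕ} (hB : PF B) (hJ : PF J) :
    PF (fun x a => posS x (B x a) (J x a)) := pf_posX hB (pf_pn.add hJ)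

theorem pf_par {B J Q : List Bool → α → ℕ} (hB : PF B) (hJ : PF J) (hQ : PF Q) :
    PF (fun x a => par x (B x a) (J x a) (Q x a)) := by
  have h : PF (fun (x : List Bool) (p : α × ℕ) =>
      bit x (posA x (Q x p.1) (p.2 + J x p.1)) * bit x (posX x (B x p.1) p.2)) :=
    (pf_bit (pf_posA hQ.fst (PF.snd.add hJ.fst))).mul (pf_bit (pf_posX hB.fst PF.snd))
  exact (PF.sum pf_pn h).mod (PF.const 2)

lemma pow2_iff (q : ℕ) : (∃ l, q = 2 ^ l) ↔ q ≠ 0 ∧ ∀ d < q + 1, q % d = 0 → d = 1 ∨ d % 2 = 0 := by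
  constructor
  · rintro ⟨l, rfl⟩
    refine ⟨by positivity, fun d _ hd => ?_⟩
    obtain ⟨j, _, rfl⟩ := (Nat.dvd_prime_pow Nat.prime_two).mp (Nat.dvd_of_mod_eq_zero hd)
    rcases Nat.eq_zero_or_pos j with rfl | hj
    · left; rfl
    · right
      obtain ⟨j', rfl⟩ : ∃ j', j = j' + 1 := ⟨j - 1, by omega⟩
      rw [pow_succ]; simp
  · rintro ⟨h0, h⟩
    rcases Nat.eq_two_pow_or_exists_odd_prime_and_dvd q with h1 | ⟨p, hp, hpq, hodd⟩
    · exact h1
    · exfalso
      have h2 := h p (Nat.lt_succ_of_le (Nat.le_of_dvd (Nat.pos_of_ne_zero h0) hpq))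
        (Nat.mod_eq_zero_of_dvd hpq)
      rcases h2 with h2 | h2
      · exact hp.one_lt.ne' h2
      · rw [Nat.odd_iff] at hodd; omega

theorem pd_imp {P Q : List Bool → α → Prop} (hP : PD P) (hQ : PD Q) :
    PD (fun x a => P x a → Q x a) :=
  (hP.not.or hQ).congr fun x a => by tauto

theorem pd_pow2 {Q : List Bool → α → ℕ} (hQ : PF Q) : PD (fun x a => ∃ l, Q x a = 2 ^ l) := by
  have h1 : PD (fun (x : List Bool) (p : α × ℕ) =>
      (Q x p.1 % p.2 = 0 → p.2 = 1 ∨ p.2 % 2 = 0)) :=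
    pd_imp (PD.eq (hQ.fst.mod PF.snd) (PF.const 0))
      ((PD.eq PF.snd (PF.const 1)).or (PD.eq (PF.snd.mod (PF.const 2)) (PF.const 0)))
  have h2 : PD (fun (x : List Bool) (a : α) => ∀ d < Q x a + 1, Q x a % d = 0 → d = 1 ∨ d % 2 = 0) :=
    PD.forall_lt (B := fun x a => Q x a + 1) (hQ.add (PF.const 1)) h1
  exact (hQ.ne_zero.and h2).congr fun x a => (pow2_iff _).symm

end

theorem pd_lang : PD (fun (x : List Bool) (_ : Unit) => Lang x) := by
  -- contexts: b, j, v, q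
  have h4 : PD (fun (x : List Bool) (p : (((Unit × ℕ) × ℕ) × ℕ) × ℕ) =>
      ((∃ l, p.2 = 2 ^ l) → p.1.2 / p.2 % 2 = par x p.1.1.1.2 p.1.1.2 p.2)) :=
    pd_imp (pd_pow2 PF.snd)
      (PD.eq ((PF.snd.fst.div PF.snd).mod (PF.const 2))
        (pf_par PF.snd.fst.fst.fst PF.snd.fst.fst PF.snd))
  have h3 : PD (fun (x : List Bool) (p : ((Unit × ℕ) × ℕ) × ℕ) =>
      ∀ q < pT x, (∃ l, q = 2 ^ l) → p.2 / q % 2 = par x p.1.1.2 p.1.2 q) :=
    PD.forall_lt (B := fun x _ => pT x) pf_pT h4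
  have h3' : PD (fun (x : List Bool) (p : ((Unit × ℕ) × ℕ) × ℕ) =>
      (∀ q < pT x, (∃ l, q = 2 ^ l) → p.2 / q % 2 = par x p.1.1.2 p.1.2 q) →
        bit x (posG x p.1.2 p.2) = bit x (posS x p.1.1.2 p.1.2)) :=
    pd_imp h3 (PD.eq (pf_bit (pf_posG PF.snd.fst PF.snd)) (pf_bit (pf_posS PF.snd.fst.fst PF.snd.fst)))
  have h2 : PD (fun (x : List Bool) (p : (Unit × ℕ) × ℕ) => ∀ v < pT x,
      (∀ q < pT x, (∃ l, q = 2 ^ l) → v / q % 2 = par x p.1.2 p.2 q) →
        bit x (posG x p.2 v) = bit x (posS x p.1.2 p.2)) :=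
    PD.forall_lt (B := fun x _ => pT x) pf_pT h3'
  have h1 : PD (fun (x : List Bool) (p : Unit × ℕ) => ∀ j < pm x, ∀ v < pT x,
      (∀ q < pT x, (∃ l, q = 2 ^ l) → v / q % 2 = par x p.2 j q) →
        bit x (posG x j v) = bit x (posS x p.2 j)) :=
    PD.forall_lt (B := fun x _ => pm x) pf_pm h2
  exact PD.forall_lt (B := fun x _ => pT x) pf_pT h1

theorem inP_of_pd {L : List Bool → Prop} (h : PD (fun x (_ : Unit) => L x)) : InP L := by
  classical
  obtain ⟨F, hF, hFL⟩ := h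
  refine ⟨fun w => decide (L w), fun w => by simp, ?_⟩
  apply PFBits.polyTime
  refine ⟨fun _ => 1, fun x _ => F x (), PF.const 1, hF.fst.congr fun x p => rfl, fun x => ?_⟩
  have : decide (F x () ≠ 0) = decide (L x) := by
    rw [decide_eq_decide]
    exact (hFL x ()).symm
  simp [List.range_succ, this]

/-- **the language is in P** -/
theorem inP_lang : InP Lang := inP_of_pd pd_lang

end Pool.Agent.KNL
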