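import Mathlib

/-! Polynomial time and nondeterministic programs with an unlimited stack. -/

namespace Pool.Agent.KNL

/-- the language is decided in polynomial time by a Turing machine (Mathlib's `TM2` model) -/
def InP (L : List Bool → Prop) : Prop :=
  ∃ f : List Bool → Bool, (∀ w, f w = true ↔ L w) ∧
    Nonempty (Turing.TM2ComputableInPolyTime (id : List Bool → List Bool)
      (id : List Bool → List Bool) (fun w => [f w]))

/-- a nondeterministic program with a stack over the alphabet `Γ`: a directed graph with unlabelled
edges, edges that test a variable, edges that push a symbol and edges that pop a symbol -/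
structure SBP (V Γ I : Type) where
  /-- source -/
  src : V
  /-- accepting node -/
  acc : V
  /-- unlabelled edges -/
  free : V → V → Prop
  /-- edges labelled by a literal -/
  test : V → I → Bool → V → Prop
  /-- edges that push a symbol on the stack -/
  push : V → Γ → V → Prop
  /-- edges that pop a symbol, which has to be the top of the stack -/
  pop : V → Γ → V → Prop

/-- `P.Walk y u σ v τ l`: there is a walk from node `u` with stack `σ` to node `v` with stack `τ` on
the input `y`, and `l` is the list of the variables tested along it, in order and with repetitions -/
inductive SBP.Walk {V Γ I : Type} (P : SBP V Γ I) (y : I → Bool) :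
    V → List Γ → V → List Γ → List I → Prop
  | nil (u : V) (σ : List Γ) : SBP.Walk P y u σ u σ []
  | free {u v w : V} {σ τ : List Γ} {l : List I} :
      P.free u v → SBP.Walk P y v σ w τ l → SBP.Walk P y u σ w τ l
  | test {u v w : V} {σ τ : List Γ} {i : I} {l : List I} :
      P.test u i (y i) v → SBP.Walk P y v σ w τ l → SBP.Walk P y u σ w τ (i :: l)
  | push {u v w : V} {a : Γ} {σ τ : List Γ} {l : List I} :
      P.push u a v → SBP.Walk P y v (a :: σ) w τ l → SBP.Walk P y u σ w τ l
  | pop {u v w : V} {a : Γ} {σ τ : List Γ} {l : List I} :
      P.pop u a v → SBP.Walk P y v σ w τ l → SBP.Walk P y u (a :: σ) w τ l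

/-- an accepting walk, from the source with empty stack to the accepting node with empty stack, that
tests the variables in the list `l` -/
def SBP.AccWalk {V Γ I : Type} (P : SBP V Γ I) (y : I → Bool) (l : List I) : Prop :=
  P.Walk y P.src [] P.acc [] l

end Pool.Agent.KNL
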