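import Mathlib
import Pool.Agent.KNL.Model
import Pool.Agent.SemRO.Defs

/-! The explicit language and the notions used in the final statement. -/

namespace Pool.Agent.KNL

open Pool.Agent.SemRO

/-- the `i`-th bit of a word (`0` beyond its end) -/
def bit (y : List Bool) (i : ℕ) : ℕ := (y.getD i false).toNat

/-- length of the run of ones that starts at position `a` -/
def run (y : List Bool) (a : ℕ) : ℕ :=
  ((Finset.range y.length).filter (fun i => ∀ i' ≤ i, bit y (a + i') = 1)).card

/-- first parameter `T`: the number of leading ones -/
def pT (y : List Bool) : ℕ := run y 0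

/-- second parameter `s`: the number of ones after the first zero -/
def pS (y : List Bool) : ℕ := run y (pT y + 1)

/-- the first position after the parameters -/
def off0 (y : List Bool) : ℕ := pT y + pS y + 2

/-- length `n` of the vectors `x^b` -/
def pn (y : List Bool) : ℕ := (y.length - off0 y) / (5 * pT y)

/-- number `m` of hash bits -/
def pm (y : List Bool) : ℕ := pn y / pS y

/-- position of the `i`-th bit of the string `α_q` (of length `2 n`) -/
def posA (y : List Bool) (q i : ℕ) : ℕ := off0 y + q * (2 * pn y) + i

/-- position of the entry `v` of the `j`-th table -/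
def posG (y : List Bool) (j v : ℕ) : ℕ := off0 y + pT y * (2 * pn y) + j * pT y + v

/-- position of the `i`-th bit of the vector `x^b` -/
def posX (y : List Bool) (b i : ℕ) : ℕ :=
  off0 y + pT y * (2 * pn y) + pm y * pT y + b * (pn y + pm y) + i

/-- position of the `j`-th bit of the prescribed hash value `s^b` -/
def posS (y : List Bool) (b j : ℕ) : ℕ := posX y b (pn y + j)

/-- the parity of the scalar product of `x^b` with the window of `α_q` starting at `j` -/
def par (y : List Bool) (b j q : ℕ) : ℕ :=
  (∑ i ∈ Finset.range (pn y), bit y (posA y q (i + j)) * bit y (posX y b i)) % 2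

/-- **The language.** For every `b < T` the hash value of `x^b` is `s^b`, where the `j`-th bit of the
hash value of `x` is the entry, in the `j`-th table, of the index `v` whose binary digit with weight
`q` (a power of two below `T`) is the parity of the scalar product of `x` with the `j`-th window of
`α_q`. -/
def Lang (y : List Bool) : Prop :=
  ∀ b < pT y, ∀ j < pm y, ∀ v < pT y,
    (∀ q < pT y, (∃ l, q = 2 ^ l) → v / q % 2 = par y b j q) →
      bit y (posG y j v) = bit y (posS y b j)

/-- `P` accepts the input `y` -/
def Accepts {V : Type} {N : ℕ} (P : NBP V (Fin N)) (y : Fin N → Bool) : Prop :=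
  ∃ l, P.Path y P.src P.acc l

end Pool.Agent.KNL
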