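import Mathlib
import Pool.Agent.KNL.LangDefs
import Pool.Agent.SemRO.Core

/-! Nondeterministic programs with an unlimited stack. -/

namespace Pool.Agent.KNL

/-- the bound for programs with a stack on one block -/
def SbpCore (k : ℕ) : Prop := ∃ (R : ℕ) (ε : ℝ) (n0 : ℕ), 2 ≤ R ∧ 0 < ε ∧ ∀ n, n0 ≤ n →
  ∀ (V Γ : Type) [Fintype V] (P : SBP V Γ (Fin n)) (F : Set (Fin n → Bool)) (L : ℕ),
    (∀ x l, P.AccWalk x l → x ∈ F) → Pool.Agent.SemRO.RectFree F L → (L : ℝ) ≤ Real.exp (ε * n) →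
    ∀ (W : Finset (Fin n → Bool)), (∀ x ∈ W, ∃ l, P.AccWalk x l ∧ l.length ≤ k * n) →
      (W.card : ℝ) ≤ ((Fintype.card V : ℝ) + n) ^ (2 * R) * (2 ^ n * Real.exp (-(ε * n)))

end Pool.Agent.KNL
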