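import Pool.Agent.PT44.Count
import Pool.Agent.KN.Core
import Pool.Agent.KNL.StackDefs

/-! Programs with an unlimited stack: proof trees, restrictions and the bound for one block. -/

namespace Pool.Agent.KNL

open Pool.Agent.SemRO Pool.Agent.PT44

variable {V Γ I : Type}

namespace SBP

lemma Walk.trans {P : SBP V Γ I} {y : I → Bool} {u v w : V} {s t r : List Γ} {l l' : List I}
    (h : P.Walk y u s v t l) (h' : P.Walk y v t w r l') : P.Walk y u s w r (l ++ l') := by
  induction h with
  | nil u s => exact h'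
  | free h _ ih => exact .free h (ih h')
  | test h _ ih => exact .test h (ih h')
  | push h _ ih => exact .push h (ih h')
  | pop h _ ih => exact .pop h (ih h')

/-- balanced walks -/
inductive Bal (P : SBP V Γ I) (y : I → Bool) : V → V → List I → Prop
  | nil (u : V) : Bal P y u u []
  | free {u v w : V} {l : List I} : Bal P y u v l → P.free v w → Bal P y u w l
  | test {u v w : V} {i : I} {l : List I} : Bal P y u v l → P.test v i (y i) w →
      Bal P y u w (l ++ [i])
  | call {u v w v' w' : V} {a : Γ} {l l' : List I} : Bal P y u v l → P.push v a v' →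
      Bal P y v' w' l' → P.pop w' a w → Bal P y u w (l ++ l')

lemma Bal.trans {P : SBP V Γ I} {y : I → Bool} {u v w : V} {l l' : List I}
    (h : P.Bal y u v l) (h' : P.Bal y v w l') : P.Bal y u w (l ++ l') := by
  induction h' with
  | nil u => simpa using h
  | free _ h2 ih => exact .free (ih h) h2
  | test _ h2 ih => rw [← List.append_assoc]; exact .test (ih h) h2
  | call _ h2 h3 h4 ih _ => rw [← List.append_assoc]; exact .call (ih h) h2 h3 h4

/-- a walk that removes the stack -/
def Down (P : SBP V Γ I) (y : I → Bool) : V → List Γ → V → List I → Prop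
  | u, [], w, l => P.Bal y u w l
  | u, a :: s, w, l => ∃ v v' l1 l2, P.Bal y u v l1 ∧ P.pop v a v' ∧ Down P y v' s w l2 ∧
      l = l1 ++ l2

lemma Down.prepend {P : SBP V Γ I} {y : I → Bool} {u v w : V} {s : List Γ} {l l' : List I}
    (h : P.Bal y u v l) (h' : P.Down y v s w l') : P.Down y u s w (l ++ l') := by
  cases s with
  | nil => exact h.trans h'
  | cons a s =>
    obtain ⟨v1, v2, l1, l2, h1, h2, h3, rfl⟩ := h'
    exact ⟨v1, v2, l ++ l1, l2, h.trans h1, h2, h3, by rw [List.append_assoc]⟩

lemma down_of_walk {P : SBP V Γ I} {y : I → Bool} {u w : V} {s t : List Γ} {l : List I}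
    (h : P.Walk y u s w t l) (ht : t = []) : P.Down y u s w l := by
  induction h with
  | nil u s => rw [ht]; exact .nil u
  | free h _ ih => exact Down.prepend (l := []) (.free (.nil _) h) (ih ht)
  | @test u v w s t i l h _ ih => exact Down.prepend (l := [i]) (.test (l := []) (.nil _) h) (ih ht)
  | push h _ ih =>
    obtain ⟨v1, v2, l1, l2, h1, h2, h3, rfl⟩ := ih ht
    exact Down.prepend (l := l1) (.call (l := []) (.nil _) h h1 h2) h3
  | pop h _ ih => exact ⟨_, _, [], _, .nil _, h, ih ht, rfl⟩

lemma bal_of_walk {P : SBP V Γ I} {y : I → Bool} {u w : V} {l : List I}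
    (h : P.Walk y u [] w [] l) : P.Bal y u w l := down_of_walk h rfl

variable {n : ℕ}

/-- the rule system of a program -/
def toRS (P : SBP V Γ (Fin n)) : RS ((V × V) ⊕ (Fin n × Bool)) n where
  vars q := match q with
    | .inl _ => ∅
    | .inr p => {p.1}
  tv q x := match q with
    | .inl p => p.1 = p.2
    | .inr p => x p.1 = p.2
  dep := by
    rintro (p | p) x y h h'
    · exact h'
    · have := h p.1 (by simp)
      exact this.symm.trans h'
  r1 p q := match p, q with
    | .inl p, .inl q => p.1 = q.1 ∧ P.free p.2 q.2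
    | _, _ => False
  r2 p p' q := match p, p', q with
    | .inl p, .inr r, .inl q => p.1 = q.1 ∧ P.test p.2 r.1 r.2 q.2
    | .inl p, .inl r, .inl q => p.1 = q.1 ∧ ∃ a, P.push p.2 a r.1 ∧ P.pop r.2 a q.2
    | _, _, _ => False
  out := .inl (P.src, P.acc)

lemma pt_of_bal {P : SBP V Γ (Fin n)} {y : Fin n → Bool} {u v : V} {l : List (Fin n)}
    (h : P.Bal y u v l) : P.toRS.PT y (.inl (u, v)) l := by
  induction h with
  | nil u =>
    have := RS.PT.leaf (H := P.toRS) (y := y) (q := .inl (u, u)) rfl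
    simpa [toRS] using this
  | @free u v w l _ h ih => exact RS.PT.one (H := P.toRS) (p := .inl (u, v)) ⟨rfl, h⟩ ih
  | @test u v w i l _ h ih =>
    refine RS.PT.two (H := P.toRS) (p := .inl (u, v)) (p' := .inr (i, y i)) ⟨rfl, h⟩ ih ?_
    have := RS.PT.leaf (H := P.toRS) (y := y) (q := .inr (i, y i)) rfl
    simpa [toRS] using this
  | @call u v w v' w' a l l' _ h2 _ h4 ih ih' =>
    exact RS.PT.two (H := P.toRS) (p := .inl (u, v)) (p' := .inl (v', w')) ⟨rfl, a, h2, h4⟩ ih ih'

lemma walk_of_pt {P : SBP V Γ (Fin n)} {y : Fin n → Bool} {q : (V × V) ⊕ (Fin n × Bool)}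
    {l : List (Fin n)} (h : P.toRS.PT y q l) :
    (∀ u v, q = .inl (u, v) → ∀ s, ∃ l', P.Walk y u s v s l') ∧
      ∀ i b, q = .inr (i, b) → y i = b := by
  induction h with
  | @leaf q h =>
    constructor
    · rintro u v rfl s
      have h' : u = v := h
      rw [h']
      exact ⟨[], .nil _ _⟩
    · rintro i b rfl
      exact h
  | @one p q l h _ ih =>
    constructor
    · rintro u v rfl s
      rcases p with p | p
      · obtain ⟨h1, h2⟩ := (h : p.1 = u ∧ P.free p.2 v)
        obtain ⟨l', hl'⟩ := ih.1 p.1 p.2 rfl s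
        rw [h1] at hl'
        exact ⟨_, hl'.trans (.free h2 (.nil _ _))⟩
      · exact (h : False).elim
    · rintro i b rfl
      rcases p with p | p <;> exact (h : False).elim
  | @two p p' q l l' h _ _ ih ih' =>
    constructor
    · rintro u v rfl s
      rcases p with p | p
      · obtain ⟨l1, hl1⟩ := ih.1 p.1 p.2 rfl s
        rcases p' with r | r
        · obtain ⟨h1, a, h2, h3⟩ := (h : p.1 = u ∧ ∃ a, P.push p.2 a r.1 ∧ P.pop r.2 a v)
          obtain ⟨l2, hl2⟩ := ih'.1 r.1 r.2 rfl (a :: s)
          rw [h1] at hl1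
          exact ⟨_, hl1.trans (.push h2 (hl2.trans (.pop h3 (.nil _ _))))⟩
        · obtain ⟨h1, h2⟩ := (h : p.1 = u ∧ P.test p.2 r.1 r.2 v)
          have h3 : y r.1 = r.2 := ih'.2 r.1 r.2 rfl
          rw [h1] at hl1
          have h4 : P.test p.2 r.1 (y r.1) v := by rw [h3]; exact h2
          exact ⟨_, hl1.trans (.test h4 (.nil _ _))⟩
      · rcases p' with r | r <;> exact (h : False).elim
    · rintro i b rfl
      rcases p with p | p <;> rcases p' with r | r <;> exact (h : False).elim

end SBP

theorem sbp_core (k : ℕ) : SbpCore k := by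
  classical
  obtain ⟨R, ε, n0, hR, hε, h⟩ := KN.core (4 * k + 4)
  refine ⟨R, ε, max n0 R, hR, hε, ?_⟩
  intro n hn V Γ _ P F L hacc hrf hL W hW
  have hn0 : n0 ≤ n := le_trans (le_max_left _ _) hn
  have hnR : R ≤ n := le_trans (le_max_right _ _) hn
  have hcore : Core (4 * k + 4) R ε n := by
    intro W c F L h1 h2 h3 h4 h5 h6
    exact h n hn0 W c F L h1 h2 (fun z hz z' hz' j => h3 j z hz z' hz') h4 h5 h6
  have hcount := rs_count (k := k) hR hnR hcore P.toRS F (by
      rintro (p | p)
      · simp [SBP.toRS]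
      · simpa [SBP.toRS] using hnR) (by
      rintro z ⟨l, hl⟩
      obtain ⟨l', hl'⟩ := (SBP.walk_of_pt hl).1 _ _ rfl []
      exact hacc z l' hl') hrf hL W (by
      intro x hx
      obtain ⟨l, hl, hlen⟩ := hW x hx
      exact ⟨l, SBP.pt_of_bal (SBP.bal_of_walk hl), hlen⟩)
  refine hcount.trans ?_
  have hV1 : (1 : ℝ) ≤ Fintype.card V := by
    have : 0 < Fintype.card V := Fintype.card_pos_iff.2 ⟨P.src⟩
    exact_mod_cast this
  have hQ : (Fintype.card ((V × V) ⊕ (Fin n × Bool)) : ℝ) ≤ ((Fintype.card V : ℝ) + n) ^ 2 := by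
    simp only [Fintype.card_sum, Fintype.card_prod, Fintype.card_fin, Fintype.card_bool]
    push_cast
    have hn1 : (0 : ℝ) ≤ n := by positivity
    nlinarith [mul_le_mul_of_nonneg_right hV1 hn1]
  have e1 : Real.exp (n * Real.log 2 - ε * n) = 2 ^ n * Real.exp (-(ε * n)) := by
    have e2 : (2 : ℝ) ^ n = Real.exp (n * Real.log 2) := by
      rw [Real.exp_nat_mul, Real.exp_log (by norm_num)]
    rw [e2, ← Real.exp_add]
    congr 1
  rw [e1, pow_mul]
  exact mul_le_mul_of_nonneg_right (pow_le_pow_left₀ (by positivity) hQ R) (by positivity)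

end Pool.Agent.KNL
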