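import Pool.Agent.KNL.Main
import Pool.Agent.KNL.StackDefs

/-! The lower bound for the language and programs with a stack, from the bound for one block. -/

namespace Pool.Agent.KNL

open Pool.Agent.SemRO

section res
variable {V Γ : Type} {N n : ℕ}

/-- fix the variables `i` with `o i = none` to their value in `base`, rename the others -/
def sres (P : SBP V Γ (Fin N)) (o : Fin N → Option (Fin n)) (base : Fin N → Bool) :
    SBP V Γ (Fin n) where
  src := P.src
  acc := P.acc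
  free u v := P.free u v ∨ ∃ i, o i = none ∧ P.test u i (base i) v
  test u a b v := ∃ i, o i = some a ∧ P.test u i b v
  push := P.push
  pop := P.pop

lemma sres_of_walk {P : SBP V Γ (Fin N)} {o : Fin N → Option (Fin n)} {base : Fin N → Bool}
    {x : Fin n → Bool} {u v : V} {σ τ : List Γ} {l : List (Fin N)}
    (h : P.Walk (paste o base x) u σ v τ l) :
    ∃ l', (sres P o base).Walk x u σ v τ l' ∧ l'.length = cnt o l := by
  induction h with
  | nil u σ => exact ⟨[], .nil u σ, rfl⟩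
  | free h _ ih =>
    obtain ⟨l', h1, h2⟩ := ih
    exact ⟨l', .free (Or.inl h) h1, h2⟩
  | @test u v w σ τ i l h _ ih =>
    obtain ⟨l', h1, h2⟩ := ih
    cases ho : o i with
    | none =>
      refine ⟨l', .free (Or.inr ⟨i, ho, ?_⟩) h1, ?_⟩
      · rw [paste_none ho] at h; exact h
      · rw [h2]; simp [cnt, ho]
    | some a =>
      refine ⟨a :: l', .test ⟨i, ho, ?_⟩ h1, ?_⟩
      · rw [paste_some ho] at h; exact h
      · rw [List.length_cons, h2]; simp [cnt, ho]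
  | push h _ ih =>
    obtain ⟨l', h1, h2⟩ := ih
    exact ⟨l', .push h h1, h2⟩
  | pop h _ ih =>
    obtain ⟨l', h1, h2⟩ := ih
    exact ⟨l', .pop h h1, h2⟩

lemma walk_of_sres {P : SBP V Γ (Fin N)} {o : Fin N → Option (Fin n)} {base : Fin N → Bool}
    {x : Fin n → Bool} {u v : V} {σ τ : List Γ} {l : List (Fin n)}
    (h : (sres P o base).Walk x u σ v τ l) : ∃ l', P.Walk (paste o base x) u σ v τ l' := by
  induction h with
  | nil u σ => exact ⟨[], .nil u σ⟩
  | free h _ ih =>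
    obtain ⟨l', h1⟩ := ih
    rcases h with h | ⟨i, ho, h⟩
    · exact ⟨l', .free h h1⟩
    · refine ⟨i :: l', .test ?_ h1⟩
      rw [paste_none ho]; exact h
  | test h _ ih =>
    obtain ⟨l', h1⟩ := ih
    obtain ⟨i, ho, h⟩ := h
    refine ⟨i :: l', .test ?_ h1⟩
    rw [paste_some ho]; exact h
  | push h _ ih =>
    obtain ⟨l', h1⟩ := ih
    exact ⟨l', .push h h1⟩
  | pop h _ ih =>
    obtain ⟨l', h1⟩ := ih
    exact ⟨l', .pop h h1⟩

end res

/-- the final numbers -/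
lemma final_numS {R n N w m q : ℕ} {v ε ε' : ℝ} (hε : 0 < ε) (hv : 0 ≤ v)
    (hwm : q + w + m ≤ n) (hvN : v ≤ Real.exp (2 * (ε * N))) (hq : (q : ℝ) ≤ ε * N + 1)
    (hNR : ε * N * (4 * R + 1) ≤ ε' * n / 4) (h1 : 1 ≤ ε' * n / 8)
    (hw : (w : ℝ) ≤ ε' * n / 8) (hm : (m : ℝ) ≤ ε' * n / 4)
    (hA : (2 : ℝ) ^ (n - q - w - m) ≤ v ^ (2 * R) * (2 ^ n * Real.exp (-(ε' * n)))) : False := by
  have e1 : (2 : ℝ) ^ n = 2 ^ (q + w + m) * 2 ^ (n - q - w - m) := by
    rw [← pow_add]; congr 1; omega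
  have hp : (0 : ℝ) < 2 ^ (n - q - w - m) := by positivity
  have hεN : 0 ≤ ε * N := by positivity
  have h3 : Real.exp (ε' * n) ≤ v ^ (2 * R) * 2 ^ (q + w + m) := by
    rw [e1] at hA
    have h2 : (2 : ℝ) ^ (n - q - w - m) * 1 ≤
        (2 : ℝ) ^ (n - q - w - m) * (v ^ (2 * R) * 2 ^ (q + w + m) * Real.exp (-(ε' * n))) := by
      have e2 : (2 : ℝ) ^ (n - q - w - m) *
          (v ^ (2 * R) * 2 ^ (q + w + m) * Real.exp (-(ε' * n))) =
          v ^ (2 * R) * (2 ^ (q + w + m) * 2 ^ (n - q - w - m) * Real.exp (-(ε' * n))) := by ring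
      rw [mul_one, e2]; exact hA
    have h3 := le_of_mul_le_mul_left h2 hp
    rw [Real.exp_neg, ← div_eq_mul_inv, le_div_iff₀ (Real.exp_pos _), one_mul] at h3
    exact h3
  have h2e : (2 : ℝ) ≤ Real.exp 1 := by
    have := Real.add_one_le_exp (1 : ℝ)
    linarith
  have h4 : (2 : ℝ) ^ (q + w + m) ≤ Real.exp (q + w + m) := by
    calc (2 : ℝ) ^ (q + w + m) ≤ (Real.exp 1) ^ (q + w + m) := pow_le_pow_left₀ (by norm_num) h2e _
      _ = Real.exp ((q + w + m : ℕ) : ℝ) := by rw [← Real.exp_nat_mul, mul_one]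
      _ = _ := by push_cast; ring_nf
  have h6 : v ^ (2 * R) ≤ Real.exp (2 * R * (2 * (ε * N))) := by
    calc v ^ (2 * R) ≤ Real.exp (2 * (ε * N)) ^ (2 * R) := pow_le_pow_left₀ hv hvN _
      _ = _ := by
        rw [← Real.exp_nat_mul]; push_cast; ring_nf
  have h7 : Real.exp (ε' * n) ≤ Real.exp (2 * R * (2 * (ε * N)) + (q + w + m)) := by
    rw [Real.exp_add]
    exact le_trans h3 (mul_le_mul h6 h4 (by positivity) (by positivity))
  have h8 := Real.exp_le_exp.mp h7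
  nlinarith

/-- few nodes: the size that enters the bound for one block -/
lemma size_bound {N n : ℕ} {v ε : ℝ} (hε : 0 < ε) (hnN : n ≤ N) (hN : 2 / ε ^ 2 ≤ N)
    (hv : v ≤ (2 : ℝ) ^ (ε * N)) : v + n ≤ Real.exp (2 * (ε * N)) := by
  have hεN : 0 ≤ ε * N := by positivity
  have h5 : v ≤ Real.exp (ε * N) := by
    refine le_trans hv ?_
    rw [Real.rpow_def_of_pos (by norm_num)]
    apply Real.exp_le_exp.mpr
    have h9 : Real.log 2 ≤ 1 := by
      have := Real.log_le_sub_one_of_pos (show (0 : ℝ) < 2 by norm_num)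
      linarith
    calc Real.log 2 * (ε * N) ≤ 1 * (ε * N) := mul_le_mul_of_nonneg_right h9 hεN
      _ = _ := one_mul _
  have h6 := Real.quadratic_le_exp_of_nonneg hεN
  have h7 : (N : ℝ) ≤ (ε * N) ^ 2 / 2 := by
    rw [div_le_iff₀ (by positivity)] at hN
    have hN0 : (0 : ℝ) ≤ N := by positivity
    nlinarith
  have h8 : (n : ℝ) ≤ N := by exact_mod_cast hnN
  have h9 : Real.exp (2 * (ε * N)) = Real.exp (ε * N) * Real.exp (ε * N) := by
    rw [← Real.exp_add]; ring_nf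
  rw [h9]
  nlinarith

/-- **Strong form.** Programs that accept only words of the language accept, with at most `k N` tests,
only a tiny fraction of a certain set of words of the language. -/
theorem lower_stack_of (hcore : ∀ k, SbpCore k) (hhash : ∀ s, 1 ≤ s → HashOK s) (k : ℕ) :
    ∃ (ε : ℝ) (N0 : ℕ), 0 < ε ∧ ∀ N, N0 ≤ N → ∃ A : Finset (Fin N → Bool), A.Nonempty ∧
      (∀ y ∈ A, Lang (List.ofFn y)) ∧
      ∀ (V Γ : Type) [Fintype V] (P : SBP V Γ (Fin N)), (Fintype.card V : ℝ) ≤ (2 : ℝ) ^ (ε * N) →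
        (∀ y l, P.AccWalk y l → Lang (List.ofFn y)) →
        ∀ S ⊆ A, (∀ y ∈ S, ∃ l, P.AccWalk y l ∧ l.length ≤ k * N) →
          (S.card : ℝ) ≤ (2 : ℝ) ^ (-(ε * N)) * A.card := by
  classical
  obtain ⟨R, ε', n0, hR, hε', hcore⟩ := hcore (6 * k)
  obtain ⟨s, hs2, hs⟩ : ∃ s : ℕ, 2 ≤ s ∧ 4 / ε' ≤ s :=
    ⟨max 2 ⌈4 / ε'⌉₊, le_max_left _ _, le_trans (Nat.le_ceil _) (by exact_mod_cast le_max_right _ _)⟩
  obtain ⟨w, t, n0', hhash⟩ := hhash s (by omega)
  obtain ⟨n1, h1, h2, h3, h4, h5, h6, h6'⟩ : ∃ n1 : ℕ, n0 ≤ n1 ∧ n0' ≤ n1 ∧ 8 + s ≤ n1 ∧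
      8 * w ≤ n1 ∧ (w : ℝ) * 8 / ε' ≤ n1 ∧ (t : ℝ) / ε' ≤ n1 ∧ (8 : ℝ) / ε' ≤ n1 := by
    refine ⟨n0 + n0' + (8 + s) + 8 * w + ⌈(w : ℝ) * 8 / ε'⌉₊ + ⌈(t : ℝ) / ε'⌉₊ + ⌈(8 : ℝ) / ε'⌉₊,
      by omega, by omega, by omega, by omega, le_trans (Nat.le_ceil _) ?_,
      le_trans (Nat.le_ceil _) ?_, le_trans (Nat.le_ceil _) ?_⟩
    · exact_mod_cast (by omega)
    · exact_mod_cast (by omega)
    · exact_mod_cast (by omega)
  have hTpos : 0 < 2 ^ w := by positivity
  have hR1 : (2 : ℝ) ≤ (R : ℝ) := by exact_mod_cast hR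
  set T' : ℝ := ((2 ^ w : ℕ) : ℝ) with hT'
  have hT'pos : 0 < T' := by rw [hT']; exact_mod_cast hTpos
  set ε : ℝ := min ε' 1 / (24 * T' * (4 * R + 1)) with hε
  have hm0 : 0 < min ε' 1 := lt_min hε' one_pos
  have hε0 : 0 < ε := by rw [hε]; positivity
  refine ⟨ε, 2 ^ w + s + 2 + 5 * 2 ^ w * n1 + ⌈2 / ε ^ 2⌉₊, hε0, ?_⟩
  intro N hN'
  have hN : 2 ^ w + s + 2 + 5 * 2 ^ w * n1 ≤ N := by omega
  have hN2 : 2 / ε ^ 2 ≤ (N : ℝ) := le_trans (Nat.le_ceil _) (by exact_mod_cast (by omega))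
  set n := (N - (2 ^ w + s + 2)) / (5 * 2 ^ w) with hn
  set m := n / s with hm
  have hn1 : n1 ≤ n := by
    rw [hn, Nat.le_div_iff_mul_le (by positivity)]
    have : n1 * (5 * 2 ^ w) = 5 * 2 ^ w * n1 := by ring
    omega
  have hNn : N ≤ 6 * 2 ^ w * n := by
    have h7 : N - (2 ^ w + s + 2) < 5 * 2 ^ w * (n + 1) := by
      rw [hn]; exact Nat.lt_mul_div_succ _ (by positivity)
    have h8 : 2 ^ w * (8 + s) ≤ 2 ^ w * n := Nat.mul_le_mul_left _ (by omega)
    have h9 : s ≤ 2 ^ w * s := Nat.le_mul_of_pos_left _ hTpos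
    have e1 : 5 * 2 ^ w * (n + 1) = 5 * (2 ^ w * n) + 5 * 2 ^ w := by ring
    have e2 : 6 * 2 ^ w * n = 6 * (2 ^ w * n) := by ring
    have e3 : 2 ^ w * (8 + s) = 8 * 2 ^ w + 2 ^ w * s := by ring
    omega
  have hmn : 2 * m ≤ n := by
    have h7 : m * s ≤ n := by rw [hm]; exact Nat.div_mul_le_self _ _
    have h8 : m * 2 ≤ m * s := Nat.mul_le_mul_left _ hs2
    omega
  have hn0 : (0 : ℝ) ≤ n := by positivity
  have hNr : ε * N * (4 * R + 1) ≤ min ε' 1 * n / 4 := by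
    have h7 : (N : ℝ) ≤ 6 * T' * n := by rw [hT']; exact_mod_cast hNn
    calc ε * N * (4 * R + 1) ≤ ε * (6 * T' * n) * (4 * R + 1) := by
          apply mul_le_mul_of_nonneg_right _ (by positivity)
          exact mul_le_mul_of_nonneg_left h7 hε0.le
      _ = _ := by rw [hε]; field_simp; ring
  have hεN : 0 ≤ ε * N := by positivity
  set q := ⌈ε * N⌉₊ with hq
  have hq1 : ε * N ≤ q := Nat.le_ceil _
  have hq2 : (q : ℝ) ≤ ε * N + 1 := (Nat.ceil_lt_add_one hεN).le
  have hqn : 4 * q ≤ n + 4 := by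
    have h7 : min ε' 1 * n ≤ 1 * n := mul_le_mul_of_nonneg_right (min_le_right _ _) hn0
    have h8 : ε * N * 1 ≤ ε * N * (4 * R + 1) := mul_le_mul_of_nonneg_left (by linarith) hεN
    have : (4 * q : ℝ) ≤ n + 4 := by nlinarith
    exact_mod_cast this
  have hqwm : q + w + m ≤ n := by omega
  obtain ⟨α, g, hrf⟩ := hhash n (by omega)
  -- the words
  have hNs : 2 ^ w + s + 2 ≤ N := by omega
  have hlang := fun (X Sg : ℕ → ℕ → Bool) => lang_wl (w := w) (s := s) (n := n) (m := m) (N := N)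
    (α := α) (g := g) (X := X) (Sg := Sg) (by omega) hNs hn (by omega) hm
  set Y : (Fin (2 ^ w) → Fin n → Bool) → Fin N → Bool :=
    fun X p => wd w s n m α g (ext X) (sg α g X) p with hY
  have hYL : ∀ X, Lang (List.ofFn (Y X)) := by
    intro X
    refine (hlang (ext X) (sg α g X)).mpr fun b hb j _ => ?_
    rw [ext_fun X hb, sg_val α g X hb]
    rfl
  have hlenN : 2 ^ w + s + 2 + 5 * 2 ^ w * n ≤ N := by
    have h1 : n * (5 * 2 ^ w) ≤ N - (2 ^ w + s + 2) := by rw [hn]; exact Nat.div_mul_le_self _ _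
    have h2 : 5 * 2 ^ w * n = n * (5 * 2 ^ w) := by ring
    omega
  have hYinj : Function.Injective Y := by
    intro X X' h
    funext b i
    have hb := b.isLt
    have hi := i.isLt
    have hpos : 2 ^ w + s + 2 + 2 ^ w * (2 * n) + m * 2 ^ w + b * (n + m) + i < N := by
      have h7 : ((b : ℕ) + 1) * (n + m) ≤ 2 ^ w * (n + m) := Nat.mul_le_mul_right _ hb
      have h8 : 2 ^ w * m ≤ 2 ^ w * n := Nat.mul_le_mul_left _ (by omega)
      nlinarith
    have h7 := congrFun h ⟨_, hpos⟩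
    simp only [hY] at h7
    rw [wd_blk hb (by omega), wd_blk hb (by omega), if_pos hi, if_pos hi, ext_val _ hb hi,
      ext_val _ hb hi] at h7
    exact h7
  refine ⟨Finset.univ.image Y, (Finset.univ_nonempty).image Y, ?_, ?_⟩
  · intro y hy
    obtain ⟨X, _, rfl⟩ := Finset.mem_image.mp hy
    exact hYL X
  intro V Γ _ P hV hP S hSA hSl
  by_contra hcon
  push Not at hcon
  set G : Finset (Fin (2 ^ w) → Fin n → Bool) := Finset.univ.filter (fun X => Y X ∈ S) with hG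
  have hGS : G.card = S.card := by
    rw [← Finset.card_image_of_injective G hYinj]
    congr 1
    ext y
    rw [Finset.mem_image]
    constructor
    · rintro ⟨X, hX, rfl⟩
      exact (Finset.mem_filter.mp hX).2
    · intro hy
      obtain ⟨X, _, rfl⟩ := Finset.mem_image.mp (hSA hy)
      exact ⟨X, Finset.mem_filter.mpr ⟨Finset.mem_univ _, hy⟩, rfl⟩
  have hcardA : (Finset.univ.image Y).card = 2 ^ (n * 2 ^ w) := by
    rw [Finset.card_image_of_injective _ hYinj, Finset.card_univ, Fintype.card_fun,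
      Fintype.card_fun, Fintype.card_bool, Fintype.card_fin, Fintype.card_fin, ← pow_mul]
  have hnT : n ≤ n * 2 ^ w := Nat.le_mul_of_pos_right _ hTpos
  have hGc : 2 ^ (n * 2 ^ w - q) ≤ G.card := by
    rw [hGS]
    have h7 : ((2 : ℝ) ^ (n * 2 ^ w - q)) ≤ S.card := by
      refine le_trans ?_ hcon.le
      rw [hcardA, ← Real.rpow_natCast, Nat.cast_sub (by omega), Nat.cast_pow, Nat.cast_ofNat,
        ← Real.rpow_natCast 2 (n * 2 ^ w), ← Real.rpow_add (by norm_num)]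
      apply Real.rpow_le_rpow_of_exponent_le (by norm_num)
      linarith
    exact_mod_cast h7
  have hchoice : ∀ X : Fin (2 ^ w) → Fin n → Bool, ∃ b : Fin (2 ^ w), X ∈ G →
      ∃ l, P.AccWalk (Y X) l ∧ cnt (ob N n (bs w s n m b)) l * 2 ^ w ≤ k * N := by
    intro X
    by_cases hX : X ∈ G
    · obtain ⟨l, hl1, hl2⟩ := hSl (Y X) (Finset.mem_filter.mp hX).2
      obtain ⟨b, hb⟩ := exists_rare hTpos (fun b : Fin (2 ^ w) => ob N n (bs w s n m b))
        (fun b b' p => ob_disj b b' p) l hl2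
      exact ⟨b, fun _ => ⟨l, hl1, hb⟩⟩
    · exact ⟨⟨0, hTpos⟩, fun h => absurd h hX⟩
  choose β hβ using hchoice
  obtain ⟨b0, X0, W, hWc, hW⟩ := choose_fiber rfl hqwm G hGc β (fun x j => hbit α g j x)
  -- the restricted program
  set base : Fin N → Bool := fun p => wd w s n m α g (ext X0) (sg α g X0) p with hbase
  set σ : ℕ → Bool := fun j => hbit α g j (X0 b0) with hσ
  have hF : ∀ x l, (sres P (ob N n (bs w s n m b0)) base).AccWalk x l →
      x ∈ {x : Fin n → Bool | ∀ j, j < n / s → hbit α g j x = σ j} := by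
    intro x l hx
    obtain ⟨l', hl'⟩ := walk_of_sres hx
    have h7 : Lang (List.ofFn (paste (ob N n (bs w s n m b0)) base x)) := hP _ l' hl'
    rw [hbase, paste_wd] at h7
    intro j hj
    have h8 := (hlang _ _).mp h7 b0 b0.isLt j hj
    rw [ext_fun _ b0.isLt, sg_val α g X0 b0.isLt, Function.update_self] at h8
    exact h8
  have hWl : ∀ x ∈ W, ∃ l, (sres P (ob N n (bs w s n m b0)) base).AccWalk x l ∧
      l.length ≤ 6 * k * n := by
    intro x hx
    obtain ⟨h6, h7, h8⟩ := hW x hx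
    set X := Function.update X0 b0 x with hX
    have hpaste : paste (ob N n (bs w s n m b0)) base x = Y X := by
      rw [hbase, paste_wd, hY]
      funext p
      refine wd_congr (fun _ _ _ _ _ => rfl) fun b j hb hj => ?_
      rw [sg_val α g X0 hb, sg_val α g X hb]
      by_cases hbb : (⟨b, hb⟩ : Fin (2 ^ w)) = b0
      · rw [hbb, hX, Function.update_self]
        exact (h8 j hj).symm
      · rw [hX, Function.update_of_ne hbb]
    obtain ⟨l, h9, h10⟩ := hβ X h6
    rw [← hpaste] at h9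
    obtain ⟨l', hl', hl''⟩ := sres_of_walk h9
    refine ⟨l', hl', ?_⟩
    rw [h7] at h10
    rw [hl'']
    have h11 : cnt (ob N n (bs w s n m b0)) l * 2 ^ w ≤ 6 * k * n * 2 ^ w := by
      calc cnt (ob N n (bs w s n m b0)) l * 2 ^ w ≤ k * N := h10
        _ ≤ k * (6 * 2 ^ w * n) := Nat.mul_le_mul_left _ hNn
        _ = _ := by ring
    exact Nat.le_of_mul_le_mul_right h11 hTpos
  have hnr : (n1 : ℝ) ≤ n := by exact_mod_cast hn1
  have ht : (t : ℝ) ≤ Real.exp (ε' * n) := by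
    have h7 : (t : ℝ) ≤ ε' * n := by
      have := le_trans h6 hnr
      rw [div_le_iff₀ hε'] at this
      linarith
    have := Real.add_one_le_exp (ε' * n)
    linarith
  have hA := hcore n (by omega) V Γ (sres P (ob N n (bs w s n m b0)) base) _ t hF (hrf σ) ht W hWl
  have hA' : (2 : ℝ) ^ (n - q - w - m) ≤
      ((Fintype.card V : ℝ) + n) ^ (2 * R) * (2 ^ n * Real.exp (-(ε' * n))) := by
    refine le_trans ?_ hA
    exact_mod_cast hWc
  have hnN : n ≤ N := by
    have h7 : n ≤ 5 * 2 ^ w * n := Nat.le_mul_of_pos_left _ (by positivity)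
    omega
  refine final_numS hε0 (by positivity) hqwm (size_bound hε0 hnN hN2 hV) hq2 ?_ ?_ ?_ ?_ hA'
  · refine le_trans hNr ?_
    have := mul_le_mul_of_nonneg_right (min_le_left ε' 1) hn0
    linarith
  · have := le_trans h6' hnr
    rw [div_le_iff₀ hε'] at this
    linarith
  · have := le_trans h5 hnr
    rw [div_le_iff₀ hε'] at this
    linarith
  · have h7 : (m : ℝ) * s ≤ n := by
      have : m * s ≤ n := by rw [hm]; exact Nat.div_mul_le_self _ _
      exact_mod_cast this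
    have h8 : 4 ≤ s * ε' := by rwa [div_le_iff₀ hε'] at hs
    have hm0 : (0 : ℝ) ≤ m := by positivity
    have h9 : (m : ℝ) * 4 ≤ m * (s * ε') := mul_le_mul_of_nonneg_left h8 hm0
    have h10 : (m : ℝ) * s * ε' ≤ n * ε' := mul_le_mul_of_nonneg_right h7 hε'.le
    nlinarith

/-- the lower bound for programs with a stack that compute the language -/
theorem lower_stack_of' (hcore : ∀ k, SbpCore k) (hhash : ∀ s, 1 ≤ s → HashOK s) (k : ℕ) :
    ∃ (ε : ℝ) (N0 : ℕ), 0 < ε ∧ ∀ N, N0 ≤ N → ∀ (V Γ : Type) [Fintype V] (P : SBP V Γ (Fin N)),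
      (∀ y, (∃ l, P.AccWalk y l) ↔ Lang (List.ofFn y)) →
      (∀ y, Lang (List.ofFn y) → ∃ l, P.AccWalk y l ∧ l.length ≤ k * N) →
      (2 : ℝ) ^ (ε * N) ≤ Fintype.card V := by
  obtain ⟨ε, N0, hε, h⟩ := lower_stack_of hcore hhash k
  refine ⟨ε, N0 + 1, hε, fun N hN V Γ _ P hP hl => ?_⟩
  obtain ⟨A, hA, hAL, hA2⟩ := h N (by omega)
  by_contra hcon
  push Not at hcon
  have h1 := hA2 V Γ P hcon.le (fun y l hy => (hP y).mp ⟨l, hy⟩) A (Finset.Subset.refl _)
    (fun y hy => hl y (hAL y hy))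
  have hAc : (0 : ℝ) < A.card := by exact_mod_cast Finset.card_pos.mpr hA
  have h2 : (2 : ℝ) ^ (-(ε * N)) < 1 := by
    apply Real.rpow_lt_one_of_one_lt_of_neg (by norm_num)
    have : (0 : ℝ) < N := by exact_mod_cast (by omega : 0 < N)
    have := mul_pos hε this
    linarith
  nlinarith

end Pool.Agent.KNL
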