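import Pool.Agent.SemRO.Defs

/-! A nondeterministic branching program which guesses `c : C` and then runs a finite automaton
along a fixed list of queries. -/

namespace Pool.Agent.KNL

open Pool.Agent.SemRO

variable {C S I : Type}

/-- one step: read variable `i`, update the state -/
abbrev Step (S I : Type) := I × (S → Bool → S)

/-- exec the steps on the input `y` -/
def exec (y : I → Bool) (l : List (Step S I)) (s : S) : S :=
  l.foldl (fun s p => p.2 s (y p.1)) s

@[simp] lemma exec_nil (y : I → Bool) (s : S) : exec y [] s = s := rfl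

@[simp] lemma exec_cons (y : I → Bool) (p : Step S I) (l : List (Step S I)) (s : S) :
    exec y (p :: l) s = exec y l (p.2 s (y p.1)) := rfl

lemma exec_append (y : I → Bool) (l l' : List (Step S I)) (s : S) :
    exec y (l ++ l') s = exec y l' (exec y l s) := by
  simp [exec, List.foldl_append]

/-- nodes: source, accepting node, and (guess, time, state) -/
abbrev AV (C S : Type) (L : ℕ) := Option (Option (C × Fin (L + 1) × S))

/-- the program -/
def auto (L : ℕ) (prog : C → List (Step S I)) (init : S) (good : C → S → Prop) :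
    NBP (AV C S L) I where
  src := none
  acc := some none
  free u v := (u = none ∧ ∃ c, v = some (some (c, 0, init))) ∨
    (v = some none ∧ ∃ c t s, u = some (some (c, t, s)) ∧ t.val = (prog c).length ∧ good c s)
  test u i b v := ∃ c t s t' p, u = some (some (c, t, s)) ∧ (prog c)[t.val]? = some p ∧ p.1 = i ∧
    t'.val = t.val + 1 ∧ v = some (some (c, t', p.2 s b))

lemma auto_from (L : ℕ) (prog : C → List (Step S I)) (init : S) (good : C → S → Prop)
    (hL : ∀ c, (prog c).length ≤ L) (y : I → Bool) (c : C) :
    ∀ (k : ℕ) (t : Fin (L + 1)) (s : S), t.val + k = (prog c).length →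
      good c (exec y ((prog c).drop t.val) s) →
      ∃ l, (auto L prog init good).Path y (some (some (c, t, s))) (some none) l := by
  intro k
  induction k with
  | zero =>
    intro t s hk hg
    have h0 : (prog c).drop t.val = [] := List.drop_eq_nil_of_le (by omega)
    rw [h0, exec_nil] at hg
    exact ⟨[], .free (Or.inr ⟨rfl, c, t, s, rfl, by omega, hg⟩) (.nil _)⟩
  | succ k ih =>
    intro t s hk hg
    have ht : t.val < (prog c).length := by omega
    have hd : (prog c).drop t.val = (prog c)[t.val] :: (prog c).drop (t.val + 1) :=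
      List.drop_eq_getElem_cons ht
    rw [hd, exec_cons] at hg
    have hlt : t.val + 1 < L + 1 := by have := hL c; omega
    obtain ⟨l, hl⟩ := ih ⟨t.val + 1, hlt⟩ _ (by simp only; omega) hg
    exact ⟨_, .test (i := ((prog c)[t.val]).1)
      ⟨c, t, s, ⟨t.val + 1, hlt⟩, (prog c)[t.val], rfl, List.getElem?_eq_getElem ht, rfl, rfl, rfl⟩
      hl⟩

lemma auto_path (L : ℕ) (prog : C → List (Step S I)) (init : S) (good : C → S → Prop)
    (y : I → Bool) {u v : AV C S L} {l : List I}
    (h : (auto L prog init good).Path y u v l) (hv : v = some none) :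
    (u = some none → l.length = 0) ∧
    (∀ c t s, u = some (some (c, t, s)) → good c (exec y ((prog c).drop t.val) s) ∧
      t.val + l.length = (prog c).length) ∧
    (u = none → ∃ c, good c (exec y (prog c) init) ∧ l.length = (prog c).length) := by
  induction h with
  | nil u =>
    subst hv
    exact ⟨fun _ => rfl, fun c t s h => by simp at h, fun h => by simp at h⟩
  | @free u w v l hf _ ih =>
    obtain ⟨i1, i2, i3⟩ := ih hv
    rcases hf with ⟨rfl, c, rfl⟩ | ⟨rfl, c, t, s, rfl, ht, hg⟩
    · refine ⟨fun h => by simp at h, fun c t s h => by simp at h, fun _ => ⟨c, ?_⟩⟩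
      obtain ⟨h1, h2⟩ := i2 c 0 init rfl
      simp only [Fin.val_zero, List.drop_zero, zero_add] at h1 h2
      exact ⟨h1, h2⟩
    · refine ⟨fun h => by simp at h, ?_, fun h => by simp at h⟩
      intro c' t' s' h
      simp only [Option.some.injEq, Prod.mk.injEq] at h
      obtain ⟨rfl, rfl, rfl⟩ := h
      have h0 : (prog c).drop t.val = [] := List.drop_eq_nil_of_le (by omega)
      rw [h0, exec_nil, i1 rfl]
      exact ⟨hg, by omega⟩
  | @test u w v i l ht _ ih =>
    obtain ⟨i1, i2, i3⟩ := ih hv
    obtain ⟨c, t, s, t', p, rfl, hp, rfl, ht', rfl⟩ := ht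
    refine ⟨fun h => by simp at h, ?_, fun h => by simp at h⟩
    intro c' t'' s' h
    simp only [Option.some.injEq, Prod.mk.injEq] at h
    obtain ⟨rfl, rfl, rfl⟩ := h
    obtain ⟨h1, h2⟩ := i2 c t' _ rfl
    obtain ⟨hlt, hpe⟩ := List.getElem?_eq_some_iff.mp hp
    have hd : (prog c).drop t.val = (prog c)[t.val] :: (prog c).drop (t.val + 1) :=
      List.drop_eq_getElem_cons hlt
    rw [hd, exec_cons, hpe, ← ht']
    exact ⟨h1, by rw [List.length_cons]; omega⟩

/-- the program computes `∃ c, good c (exec (prog c))`, and all accepting walks are short -/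
theorem auto_spec (L : ℕ) (prog : C → List (Step S I)) (init : S) (good : C → S → Prop)
    (hL : ∀ c, (prog c).length ≤ L) :
    (auto L prog init good).Computes (fun y => ∃ c, good c (exec y (prog c) init)) ∧
    ∀ y l, (auto L prog init good).Path y none (some none) l → l.length ≤ L := by
  constructor
  · intro y
    constructor
    · rintro ⟨c, hc⟩
      obtain ⟨l, hl⟩ := auto_from L prog init good hL y c (prog c).length 0 init (by simp)
        (by simpa using hc)
      exact ⟨l, .free (Or.inl ⟨rfl, c, rfl⟩) hl⟩
    · rintro ⟨l, hl⟩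
      obtain ⟨c, hc, _⟩ := (auto_path L prog init good y hl rfl).2.2 rfl
      exact ⟨c, hc⟩
  · intro y l hl
    obtain ⟨c, _, h⟩ := (auto_path L prog init good y hl rfl).2.2 rfl
    rw [h]; exact hL c

end Pool.Agent.KNL
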