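import Pool.Agent.KNL.Auto
import Pool.Agent.KNL.LangDefs

/-! The complement of the language has small nondeterministic branching programs with at most `N`
tests. -/

namespace Pool.Agent.KNL

open Pool.Agent.SemRO

/-! ### the runs of ones -/

lemma bit_eq_one_iff (y : List Bool) (i : ℕ) : bit y i = 1 ↔ y.getD i false = true := by
  unfold bit; cases y.getD i false <;> simp

lemma bit_ne_one_iff (y : List Bool) (i : ℕ) : bit y i ≠ 1 ↔ y.getD i false = false := by
  unfold bit; cases y.getD i false <;> simp

lemma run_unique (y : List Bool) (a r : ℕ) (hr : r ≤ y.length)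
    (h1 : ∀ i < r, bit y (a + i) = 1) (h2 : bit y (a + r) ≠ 1) : run y a = r := by
  unfold run
  have : (Finset.range y.length).filter (fun i => ∀ i' ≤ i, bit y (a + i') = 1) =
      Finset.range r := by
    ext i
    simp only [Finset.mem_filter, Finset.mem_range]
    constructor
    · rintro ⟨_, h⟩
      by_contra hc
      exact h2 (h r (by omega))
    · intro h
      exact ⟨by omega, fun i' hi' => h1 i' (by omega)⟩
  rw [this, Finset.card_range]

lemma run_spec (y : List Bool) (a : ℕ) :
    (∀ i < run y a, bit y (a + i) = 1) ∧ (run y a < y.length → bit y (a + run y a) ≠ 1) := by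
  classical
  by_cases h : ∃ r, r < y.length ∧ bit y (a + r) ≠ 1
  · have hs := Nat.find_spec h
    have hm : ∀ i < Nat.find h, bit y (a + i) = 1 := by
      intro i hi
      by_contra hc
      exact Nat.find_min h hi ⟨by omega, hc⟩
    have e := run_unique y a (Nat.find h) hs.1.le hm hs.2
    rw [e]
    exact ⟨hm, fun _ => hs.2⟩
  · have h' : ∀ r < y.length, bit y (a + r) = 1 := by
      intro r hr
      by_contra hc
      exact h ⟨r, hr, hc⟩
    have e : run y a = y.length := by
      unfold run
      rw [Finset.filter_true_of_mem, Finset.card_range]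
      intro i hi i' hi'
      exact h' i' (by have := Finset.mem_range.mp hi; omega)
    rw [e]
    exact ⟨h', fun h => absurd h (lt_irrefl _)⟩

/-! ### the steps -/

/-- state: (all checks passed, current parity, last bit read) -/
abbrev St := Bool × Bool × Bool

variable {I : Type}

/-- read `i` and check that it is `e` -/
def chk (i : I) (e : Bool) : Step St I := (i, fun st b => (st.1 && (b == e), st.2))

/-- read `i` and store it -/
def ld (i : I) : Step St I := (i, fun st b => (st.1, st.2.1, b))

/-- read `i` and add the product with the stored bit to the parity -/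
def mulAdd (i : I) : Step St I := (i, fun st b => (st.1, xor st.2.1 (st.2.2 && b), st.2.2))

/-- check that the parity is `e` and reset it (a dummy variable is read) -/
def chkPar (i : I) (e : Bool) : Step St I := (i, fun st _ => (st.1 && (st.2.1 == e), false, st.2.2))

/-- read `i` and check that it differs from the stored bit -/
def chkNe (i : I) : Step St I := (i, fun st b => (st.1 && (b != st.2.2), st.2))

lemma exec_chk (y : I → Bool) (f : ℕ → I) (e : ℕ → Bool) (l : List ℕ) (st : St) :
    exec y (l.map (fun i => chk (f i) (e i))) st =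
      (st.1 && decide (∀ i ∈ l, y (f i) = e i), st.2) := by
  induction l generalizing st with
  | nil => simp
  | cons a l ih =>
    rw [List.map_cons, exec_cons, ih]
    simp only [chk, List.forall_mem_cons, Bool.decide_and, Bool.and_assoc, Prod.mk.injEq, and_true]
    congr 1

/-- the scalar product -/
def dot (a x : ℕ → I) (l : List ℕ) : List (Step St I) :=
  l.flatMap (fun i => [ld (a i), mulAdd (x i)])

lemma exec_dot (y : I → Bool) (a x : ℕ → I) (l : List ℕ) (st : St) :
    ∃ b, exec y (dot a x l) st = (st.1, xor st.2.1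
      (decide ((l.map (fun i => (y (a i)).toNat * (y (x i)).toNat)).sum % 2 = 1)), b) := by
  induction l generalizing st with
  | nil => exact ⟨st.2.2, by simp [dot]⟩
  | cons c l ih =>
    have h1 : dot a x (c :: l) = ld (a c) :: mulAdd (x c) :: dot a x l := by simp [dot]
    rw [h1, exec_cons, exec_cons]
    obtain ⟨b, hb⟩ := ih ((mulAdd (x c)).2 ((ld (a c)).2 st (y (ld (a c)).1)) (y (mulAdd (x c)).1))
    refine ⟨b, ?_⟩
    rw [hb]
    simp only [mulAdd, ld, List.map_cons, List.sum_cons, Prod.mk.injEq, true_and, and_true]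
    rw [Bool.xor_assoc]
    congr 1
    set s := (l.map (fun i => (y (a i)).toNat * (y (x i)).toNat)).sum
    rcases Nat.mod_two_eq_zero_or_one s with h | h
    · have h2 : ∀ t, (t + s) % 2 = t % 2 := by intro t; omega
      rw [h2, h]
      cases y (a c) <;> cases y (x c) <;> simp
    · have h2 : ∀ t, (t + s) % 2 = (t + 1) % 2 := by intro t; omega
      rw [h2, h]
      cases y (a c) <;> cases y (x c) <;> simp

/-- check the parities of a list of scalar products -/
def pars (d : I) (a : ℕ → ℕ → I) (x : ℕ → I) (l : List ℕ) (e : ℕ → Bool) (Q : List ℕ) :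
    List (Step St I) :=
  Q.flatMap (fun q => dot (a q) x l ++ [chkPar d (e q)])

lemma exec_pars (y : I → Bool) (d : I) (a : ℕ → ℕ → I) (x : ℕ → I) (l : List ℕ) (e : ℕ → Bool)
    (Q : List ℕ) (st : St) (h0 : st.2.1 = false) :
    ∃ b, exec y (pars d a x l e Q) st = (st.1 && decide (∀ q ∈ Q,
      decide ((l.map (fun i => (y (a q i)).toNat * (y (x i)).toNat)).sum % 2 = 1) = e q), false, b) := by
  induction Q generalizing st with
  | nil =>
    refine ⟨st.2.2, ?_⟩
    obtain ⟨s1, s2, s3⟩ := st
    simp only at h0
    subst h0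
    simp [pars]
  | cons c Q ih =>
    have h1 : pars d a x l e (c :: Q) = dot (a c) x l ++ (chkPar d (e c) :: pars d a x l e Q) := by
      simp [pars]
    rw [h1, exec_append]
    obtain ⟨b, hb⟩ := exec_dot y (a c) x l st
    rw [hb, exec_cons]
    obtain ⟨b', hb'⟩ := ih _ (rfl : ((chkPar d (e c)).2 (st.1, xor st.2.1
      (decide ((l.map (fun i => (y (a c i)).toNat * (y (x i)).toNat)).sum % 2 = 1)), b)
      (y (chkPar d (e c)).1)).2.1 = false)
    refine ⟨b', ?_⟩
    rw [hb', h0]
    simp only [chkPar, List.forall_mem_cons, Bool.decide_and, Bool.and_assoc, Prod.mk.injEq,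
      and_true, Bool.false_xor]
    congr 1

lemma length_dot (a x : ℕ → I) (l : List ℕ) : (dot a x l).length = 2 * l.length := by
  induction l with
  | nil => rfl
  | cons c l ih =>
    have h1 : dot a x (c :: l) = ld (a c) :: mulAdd (x c) :: dot a x l := by simp [dot]
    rw [h1]; simp [ih]; ring

lemma length_pars (d : I) (a : ℕ → ℕ → I) (x : ℕ → I) (l : List ℕ) (e : ℕ → Bool)
    (Q : List ℕ) : (pars d a x l e Q).length = Q.length * (2 * l.length + 1) := by
  induction Q with
  | nil => simp [pars]
  | cons c Q ih =>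
    have h1 : pars d a x l e (c :: Q) = dot (a c) x l ++ (chkPar d (e c) :: pars d a x l e Q) := by
      simp [pars]
    rw [h1, List.length_append, List.length_cons, ih, length_dot, List.length_cons]
    ring

/-! ### the program -/

/-- a guess of `T, s, b, j, v` -/
abbrev Guess (N : ℕ) := Fin (N + 1) × Fin (N + 1) × Fin (N + 1) × Fin (N + 1) × Fin (N + 1)

/-- the length `n` -/
def gn (N T s : ℕ) : ℕ := (N - (T + s + 2)) / (5 * T)

/-- the guess makes sense -/
def Valid (N T s b j v : ℕ) : Prop := b < T ∧ v < T ∧ j < gn N T s / s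

instance (N T s b j v : ℕ) : Decidable (Valid N T s b j v) := by unfold Valid; infer_instance

open Classical in
/-- the powers of two below `T` -/
noncomputable def pows (T : ℕ) : List ℕ :=
  (List.range T).filter (fun q => decide (∃ l, q = 2 ^ l))

lemma mem_pows (T q : ℕ) : q ∈ pows T ↔ q < T ∧ ∃ l, q = 2 ^ l := by
  simp [pows]

lemma length_pows (T : ℕ) (hT : 0 < T) : (pows T).length ≤ T - 1 := by
  classical
  obtain ⟨k, rfl⟩ : ∃ k, T = k + 1 := ⟨T - 1, by omega⟩
  unfold pows
  rw [List.range_succ_eq_map, List.filter_cons_of_neg (by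
    simp only [decide_eq_true_eq, not_exists]
    intro x
    exact (pow_pos (by norm_num) x).ne)]
  refine le_trans (List.length_filter_le _ _) ?_
  simp

/-- the variable at position `p` -/
def ix {N : ℕ} (hN : 0 < N) (p : ℕ) : Fin N := ⟨p % N, Nat.mod_lt _ hN⟩

/-- the list of steps for the guess `T, s, b, j, v` -/
noncomputable def prog {N : ℕ} (hN : 0 < N) (T s b j v : ℕ) : List (Step St (Fin N)) :=
  let n := gn N T s
  let m := n / s
  let o := T + s + 2
  (List.range o).map (fun i => chk (ix hN i) (decide (i ≠ T ∧ i ≠ T + 1 + s))) ++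
    (pars (ix hN 0) (fun q i => ix hN (o + q * (2 * n) + (i + j)))
      (fun i => ix hN (o + T * (2 * n) + m * T + b * (n + m) + i)) (List.range n)
      (fun q => decide (v / q % 2 = 1)) (pows T) ++
    [ld (ix hN (o + T * (2 * n) + j * T + v)),
      chkNe (ix hN (o + T * (2 * n) + m * T + b * (n + m) + (n + j)))])

lemma valid_bound {N T s b j v : ℕ} (h : Valid N T s b j v) :
    0 < T ∧ 0 < s ∧ 0 < gn N T s ∧ gn N T s / s ≤ gn N T s ∧
      T + s + 2 + 5 * (T * gn N T s) ≤ N := by
  obtain ⟨h1, h2, h3⟩ := h
  have hT : 0 < T := by omega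
  have hm : 0 < gn N T s / s := by omega
  have hs : 0 < s := by
    rcases Nat.eq_zero_or_pos s with h | h
    · rw [h, Nat.div_zero] at hm; omega
    · exact h
  have hn : 0 < gn N T s := by
    rcases Nat.eq_zero_or_pos (gn N T s) with h | h
    · rw [h, Nat.zero_div] at hm; omega
    · exact h
  refine ⟨hT, hs, hn, Nat.div_le_self _ _, ?_⟩
  have h4 : gn N T s * (5 * T) ≤ N - (T + s + 2) := Nat.div_mul_le_self _ _
  have h5 : 0 < gn N T s * (5 * T) := by positivity
  have h6 : gn N T s * (5 * T) = 5 * (T * gn N T s) := by ring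
  omega

lemma length_prog {N : ℕ} (hN : 0 < N) {T s b j v : ℕ} (h : Valid N T s b j v) :
    (prog hN T s b j v).length ≤ N := by
  obtain ⟨hT, hs, hn, hm, hb⟩ := valid_bound h
  simp only [prog, List.length_append, List.length_map, List.length_range, length_pars,
    List.length_cons, List.length_nil]
  have h1 := length_pows T hT
  have h2 : (pows T).length * (2 * gn N T s + 1) ≤ (T - 1) * (3 * gn N T s) :=
    Nat.mul_le_mul h1 (by omega)
  obtain ⟨k, rfl⟩ : ∃ k, T = k + 1 := ⟨T - 1, by omega⟩
  have h3 : (k + 1 - 1) * (3 * gn N (k + 1) s) = 3 * (k * gn N (k + 1) s) := by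
    rw [Nat.add_sub_cancel]; ring
  have h4 : 5 * ((k + 1) * gn N (k + 1) s) =
      5 * (k * gn N (k + 1) s) + 5 * gn N (k + 1) s := by ring
  rw [h3] at h2
  rw [h4] at hb
  omega


lemma exec_prog {N : ℕ} (hN : 0 < N) {T s b j v : ℕ} (h : Valid N T s b j v) (y : Fin N → Bool) :
    (exec y (prog hN T s b j v) (true, false, false)).1 = true ↔
      ((∀ i < T + s + 2, (List.ofFn y).getD i false = decide (i ≠ T ∧ i ≠ T + 1 + s)) ∧
      (∀ q < T, (∃ l, q = 2 ^ l) → v / q % 2 = (∑ i ∈ Finset.range (gn N T s),
        bit (List.ofFn y) (T + s + 2 + q * (2 * gn N T s) + (i + j)) *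
        bit (List.ofFn y) (T + s + 2 + T * (2 * gn N T s) + gn N T s / s * T +
          b * (gn N T s + gn N T s / s) + i)) % 2) ∧
      bit (List.ofFn y) (T + s + 2 + T * (2 * gn N T s) + j * T + v) ≠
      bit (List.ofFn y) (T + s + 2 + T * (2 * gn N T s) + gn N T s / s * T +
          b * (gn N T s + gn N T s / s) + (gn N T s + j))) := by
  obtain ⟨hT, hs, hn, hm, hb⟩ := valid_bound h
  obtain ⟨vb, vv, vj⟩ := h
  set n := gn N T s with hnd
  set m := n / s with hmd
  have hg : ∀ p < N, (List.ofFn y).getD p false = y (ix hN p) := by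
    intro p hp
    rw [List.getD_eq_getElem _ _ (by simpa using hp)]
    simp only [List.getElem_ofFn]
    congr 1
    apply Fin.ext
    simp [ix, Nat.mod_eq_of_lt hp]
  have hbit : ∀ p < N, bit (List.ofFn y) p = (y (ix hN p)).toNat := by
    intro p hp; unfold bit; rw [hg p hp]
  -- bounds of the positions
  have e1 : ∀ q < T, q * (2 * n) + 2 * n ≤ 2 * (T * n) := by
    intro q hq
    have : (q + 1) * (2 * n) ≤ T * (2 * n) := Nat.mul_le_mul_right _ hq
    calc q * (2 * n) + 2 * n = (q + 1) * (2 * n) := by ring
      _ ≤ T * (2 * n) := this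
      _ = 2 * (T * n) := by ring
  have e2 : T * (2 * n) = 2 * (T * n) := by ring
  have e3 : m * T ≤ T * n := by rw [mul_comm]; exact Nat.mul_le_mul_left _ hm
  have e4 : b * (n + m) + (n + m) ≤ 2 * (T * n) := by
    have : (b + 1) * (n + m) ≤ T * (2 * n) := Nat.mul_le_mul vb (by omega)
    calc b * (n + m) + (n + m) = (b + 1) * (n + m) := by ring
      _ ≤ T * (2 * n) := this
      _ = 2 * (T * n) := by ring
  have e5 : j * T + v < m * T := by
    have : (j + 1) * T ≤ m * T := Nat.mul_le_mul_right _ vj
    have h' : (j + 1) * T = j * T + T := by ring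
    omega
  have hpar : ∀ q < T, ((List.range n).map (fun i =>
      (y (ix hN (T + s + 2 + q * (2 * n) + (i + j)))).toNat *
      (y (ix hN (T + s + 2 + T * (2 * n) + m * T + b * (n + m) + i))).toNat)).sum =
      ∑ i ∈ Finset.range n, bit (List.ofFn y) (T + s + 2 + q * (2 * n) + (i + j)) *
        bit (List.ofFn y) (T + s + 2 + T * (2 * n) + m * T + b * (n + m) + i) := by
    intro q hq
    have := e1 q hq
    rw [← List.sum_toFinset _ List.nodup_range]
    simp only [List.toFinset_range]
    apply Finset.sum_congr rfl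
    intro i hi
    have hi' := Finset.mem_range.mp hi
    rw [hbit _ (by omega), hbit _ (by omega)]
  have hprog : prog hN T s b j v = (List.range (T + s + 2)).map
      (fun i => chk (ix hN i) (decide (i ≠ T ∧ i ≠ T + 1 + s))) ++
    (pars (ix hN 0) (fun q i => ix hN (T + s + 2 + q * (2 * n) + (i + j)))
      (fun i => ix hN (T + s + 2 + T * (2 * n) + m * T + b * (n + m) + i)) (List.range n)
      (fun q => decide (v / q % 2 = 1)) (pows T) ++
    [ld (ix hN (T + s + 2 + T * (2 * n) + j * T + v)),
      chkNe (ix hN (T + s + 2 + T * (2 * n) + m * T + b * (n + m) + (n + j)))]) := rfl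
  rw [hprog, exec_append, exec_append]
  obtain ⟨c, hc⟩ := exec_pars y (ix hN 0) (fun q i => ix hN (T + s + 2 + q * (2 * n) + (i + j)))
    (fun i => ix hN (T + s + 2 + T * (2 * n) + m * T + b * (n + m) + i)) (List.range n)
    (fun q => decide (v / q % 2 = 1)) (pows T)
    (exec y ((List.range (T + s + 2)).map
      (fun i => chk (ix hN i) (decide (i ≠ T ∧ i ≠ T + 1 + s)))) (true, false, false))
    (by rw [exec_chk])
  rw [hc, exec_chk, exec_cons, exec_cons, exec_nil]
  simp only [ld, chkNe, Bool.and_eq_true, decide_eq_true_eq, Bool.true_and, bne_iff_ne, ne_eq,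
    List.mem_range, mem_pows]
  rw [hbit _ (by omega), hbit _ (by omega), and_assoc]
  refine and_congr ?_ (and_congr ?_ ?_)
  · constructor
    · intro h i hi
      rw [hg i (by omega)]; exact h i hi
    · intro h i hi
      rw [← hg i (by omega)]; exact h i hi
  · constructor
    · intro h q hq hl
      have := h q ⟨hq, hl⟩
      rw [hpar q hq, decide_eq_decide] at this
      rcases Nat.mod_two_eq_zero_or_one (v / q) with h1 | h1 <;>
      rcases Nat.mod_two_eq_zero_or_one (∑ i ∈ Finset.range n,
        bit (List.ofFn y) (T + s + 2 + q * (2 * n) + (i + j)) *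
        bit (List.ofFn y) (T + s + 2 + T * (2 * n) + m * T + b * (n + m) + i)) with h2 | h2 <;>
      rw [h1, h2] at this ⊢ <;> simp at this ⊢
    · rintro h q ⟨hq, hl⟩
      rw [hpar q hq, h q hq hl]
  · rw [not_iff_not]
    cases y (ix hN (T + s + 2 + T * (2 * n) + m * T + b * (n + m) + (n + j))) <;>
    cases y (ix hN (T + s + 2 + T * (2 * n) + j * T + v)) <;> simp


/-- the steps of a guess (none if the guess is not valid) -/
noncomputable def progC {N : ℕ} (hN : 0 < N) (c : Guess N) : List (Step St (Fin N)) :=
  if Valid N c.1 c.2.1 c.2.2.1 c.2.2.2.1 c.2.2.2.2 then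
    prog hN c.1 c.2.1 c.2.2.1 c.2.2.2.1 c.2.2.2.2 else []

/-- the guess is valid and all checks are passed -/
def goodC {N : ℕ} (c : Guess N) (st : St) : Prop :=
  Valid N c.1 c.2.1 c.2.2.1 c.2.2.2.1 c.2.2.2.2 ∧ st.1 = true

lemma length_progC {N : ℕ} (hN : 0 < N) (c : Guess N) : (progC hN c).length ≤ N := by
  unfold progC
  split_ifs with h
  · exact length_prog hN h
  · simp

lemma not_lang_iff {N : ℕ} (hN : 0 < N) (y : Fin N → Bool) :
    ¬ Lang (List.ofFn y) ↔ ∃ c : Guess N, goodC c (exec y (progC hN c) (true, false, false)) := by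
  set w := List.ofFn y with hw
  have hlen : w.length = N := by simp [hw]
  constructor
  · intro h
    unfold Lang at h
    push Not at h
    obtain ⟨b, hb, j, hj, v, hv, hq, hne⟩ := h
    have hgn : gn N (pT w) (pS w) = pn w := by
      unfold gn pn off0; rw [hlen]
    have hval : Valid N (pT w) (pS w) b j v := by
      refine ⟨hb, hv, ?_⟩
      rw [hgn]; exact hj
    obtain ⟨hT, hs, hn, hm, hbd⟩ := valid_bound hval
    have hTn : pT w ≤ pT w * gn N (pT w) (pS w) := Nat.le_mul_of_pos_right _ hn
    refine ⟨(⟨pT w, by omega⟩, ⟨pS w, by omega⟩, ⟨b, by omega⟩, ⟨j, ?_⟩, ⟨v, by omega⟩), ?_⟩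
    · have h1 : j < gn N (pT w) (pS w) := lt_of_lt_of_le hval.2.2 hm
      have h2 : gn N (pT w) (pS w) ≤ pT w * gn N (pT w) (pS w) := Nat.le_mul_of_pos_left _ hT
      omega
    · refine ⟨hval, ?_⟩
      unfold progC
      rw [if_pos hval]
      rw [exec_prog hN hval y]
      obtain ⟨t1, t2⟩ := run_spec w 0
      obtain ⟨s1, s2⟩ := run_spec w (pT w + 1)
      change (∀ i < pT w, _) at t1
      change pT w < w.length → bit w (0 + pT w) ≠ 1 at t2
      change (∀ i < pS w, _) at s1
      change pS w < w.length → bit w (pT w + 1 + pS w) ≠ 1 at s2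
      have t2' := t2 (by omega)
      have s2' := s2 (by omega)
      rw [zero_add] at t2'
      refine ⟨?_, ?_, ?_⟩
      · intro i hi
        rcases lt_trichotomy i (pT w) with h | h | h
        · have := t1 i h
          rw [zero_add, bit_eq_one_iff] at this
          rw [this]; symm
          rw [decide_eq_true_eq]; omega
        · subst h
          rw [bit_ne_one_iff] at t2'
          rw [t2']; symm
          rw [decide_eq_false_iff_not]; omega
        · obtain ⟨k, rfl⟩ : ∃ k, i = pT w + 1 + k := ⟨i - (pT w + 1), by omega⟩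
          rcases Nat.lt_or_ge k (pS w) with h' | h'
          · have := s1 k h'
            rw [bit_eq_one_iff] at this
            rw [this]; symm
            rw [decide_eq_true_eq]; omega
          · have h'' : k = pS w := by omega
            subst h''
            rw [bit_ne_one_iff] at s2'
            rw [s2']; symm
            rw [decide_eq_false_iff_not]; omega
      · intro q hqT hl
        rw [hq q hqT hl, hgn]
        rfl
      · rw [hgn]
        exact hne
  · rintro ⟨⟨T, s, b, j, v⟩, hval, hacc⟩ hL
    simp only at hval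
    unfold progC at hacc
    simp only [if_pos hval] at hacc
    rw [exec_prog hN hval y] at hacc
    obtain ⟨hT, hs, hn, hm, hbd⟩ := valid_bound hval
    obtain ⟨h1, h2, h3⟩ := hacc
    have eT : pT w = T := by
      apply run_unique w 0 T (by rw [hlen]; omega)
      · intro i hi
        rw [zero_add, bit_eq_one_iff, h1 i (by omega), decide_eq_true_eq]; omega
      · rw [zero_add, bit_ne_one_iff, h1 T (by omega), decide_eq_false_iff_not]; omega
    have eS : pS w = s := by
      unfold pS
      rw [eT]
      apply run_unique w _ s (by rw [hlen]; omega)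
      · intro i hi
        rw [bit_eq_one_iff, h1 _ (by omega), decide_eq_true_eq]; omega
      · rw [bit_ne_one_iff, h1 _ (by omega), decide_eq_false_iff_not]; omega
    have hgn : pn w = gn N T s := by
      unfold gn pn off0; rw [hlen, eT, eS]
    apply h3
    have := hL b (by rw [eT]; exact hval.1) j (by unfold pm; rw [hgn, eS]; exact hval.2.2) v
      (by rw [eT]; exact hval.2.1) ?_
    · unfold posG posS posX pm off0 at this
      rw [hgn, eT, eS] at this
      exact this
    · intro q hq hl
      rw [eT] at hq
      rw [h2 q hq hl]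
      unfold par posA posX pm off0
      rw [hgn, eT, eS]

/-- **(C)** The complement of the language has nondeterministic branching programs with at most
`(N + 2)^9` nodes in which every accepting walk makes at most `N` tests. -/
theorem compl (N : ℕ) : ∃ (V : Type) (_ : Fintype V) (P : NBP V (Fin N)),
    Fintype.card V ≤ (N + 2) ^ 9 ∧ P.Computes (fun y => ¬ Lang (List.ofFn y)) ∧
    ∀ y l, P.Path y P.src P.acc l → l.length ≤ N := by
  rcases Nat.eq_zero_or_pos N with rfl | hN
  · obtain ⟨h1, h2⟩ := auto_spec (C := Empty) (S := Unit) (I := Fin 0) 0 (fun _ => []) ()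
      (fun _ _ => False) (fun _ => le_rfl)
    refine ⟨AV Empty Unit 0, inferInstance, _, ?_, ?_, fun y l h => h2 y l h⟩
    · simp
    · intro y
      rw [← h1 y]
      constructor
      · intro h
        exact absurd (fun b hb => absurd hb (by simp [pT, run])) h
      · rintro ⟨c, _⟩
        exact c.elim
  · obtain ⟨h1, h2⟩ := auto_spec (C := Guess N) (S := St) (I := Fin N) N (progC hN)
      (true, false, false) goodC (length_progC hN)
    refine ⟨AV (Guess N) St N, inferInstance, _, ?_, ?_, fun y l h => h2 y l h⟩
    · have e : Fintype.card (AV (Guess N) St N) = 8 * (N + 1) ^ 6 + 2 := by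
        simp only [Fintype.card_option, Fintype.card_prod, Fintype.card_fin, Fintype.card_bool]
        ring
      rw [e]
      have h3 : (N + 1) ^ 6 ≤ (N + 2) ^ 6 := Nat.pow_le_pow_left (by omega) _
      have h4 : 3 ^ 3 ≤ (N + 2) ^ 3 := Nat.pow_le_pow_left (by omega) _
      have h5 : 1 ≤ (N + 2) ^ 6 := Nat.one_le_pow _ _ (by omega)
      have h6 : (N + 2) ^ 9 = (N + 2) ^ 3 * (N + 2) ^ 6 := by rw [← pow_add]
      have h7 : 3 ^ 3 * (N + 2) ^ 6 ≤ (N + 2) ^ 3 * (N + 2) ^ 6 := Nat.mul_le_mul_right _ h4
      omega
    · intro y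
      rw [← h1 y]
      exact not_lang_iff hN y

end Pool.Agent.KNL
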