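import Pool.Agent.KNL.Compl
import Pool.Agent.KNL.StackDefs

/-! The complement of the language: programs with a stack that never use the stack. -/

namespace Pool.Agent.KNL

open Pool.Agent.SemRO

/-- a program without stack, seen as a program with a stack over the empty alphabet -/
def toStack {V I : Type} (P : NBP V I) : SBP V Empty I where
  src := P.src
  acc := P.acc
  free := P.free
  test := P.test
  push _ _ _ := False
  pop _ _ _ := False

lemma walk_of_path {V I : Type} {P : NBP V I} {y : I → Bool} {u v : V} {l : List I}
    (h : P.Path y u v l) : (toStack P).Walk y u [] v [] l := by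
  induction h with
  | nil u => exact .nil u []
  | free h _ ih => exact .free h ih
  | test h _ ih => exact .test h ih

lemma path_of_walk {V I : Type} {P : NBP V I} {y : I → Bool} {u v : V} {σ τ : List Empty}
    {l : List I} (h : (toStack P).Walk y u σ v τ l) : P.Path y u v l := by
  induction h with
  | nil u σ => exact .nil u
  | free h _ ih => exact .free h ih
  | test h _ ih => exact .test h ih
  | push h _ _ => exact h.elim
  | pop h _ _ => exact h.elim

lemma acc_toStack {V I : Type} {P : NBP V I} {y : I → Bool} {l : List I} :
    (toStack P).AccWalk y l ↔ P.Path y P.src P.acc l :=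
  ⟨fun h => path_of_walk h, fun h => walk_of_path h⟩

/-- **(C), with stack syntax.** The complement of the language has nondeterministic programs that do
not use the stack, with at most `(N + 2)^9` nodes, in which every accepting walk makes at most `N`
tests. -/
theorem compl_stack (N : ℕ) : ∃ (V : Type) (_ : Fintype V) (P : SBP V Empty (Fin N)),
    Fintype.card V ≤ (N + 2) ^ 9 ∧ (∀ u a v, ¬ P.push u a v) ∧ (∀ u a v, ¬ P.pop u a v) ∧
    (∀ y, (∃ l, P.AccWalk y l) ↔ ¬ Lang (List.ofFn y)) ∧
    ∀ y l, P.AccWalk y l → l.length ≤ N := by
  obtain ⟨V, iV, P, h1, h2, h3⟩ := compl N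
  refine ⟨V, iV, toStack P, h1, fun _ _ _ h => h, fun _ _ _ h => h, fun y => ?_, fun y l h => ?_⟩
  · exact (exists_congr fun l => acc_toStack).trans (h2 y).symm
  · exact h3 y l (acc_toStack.1 h)

end Pool.Agent.KNL
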