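import Pool.Agent.KNL.HashDef

/-! Hash functions with linearly many random bits whose level sets contain no rectangle of constant
size. -/

namespace Pool.Agent.KNL.Hash

open Finset Pool.Agent.SemRO

variable {n : ℕ}

/-- a bit as an element of `ZMod 2` -/
def b2 (b : Bool) : ZMod 2 := if b then 1 else 0

lemma b2_not (b : Bool) : b2 (!b) = b2 b + 1 := by cases b <;> decide

lemma b2_inj {b c : Bool} (h : b2 b = b2 c) : b = c := by
  revert h; cases b <;> cases c <;> decide

/-- bits of a vector, extended by zero -/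
def ext {N : ℕ} (a : Fin N → Bool) (k : ℕ) : ZMod 2 := if h : k < N then b2 (a ⟨k, h⟩) else 0

/-- scalar product of `d` with the window of `a` that starts at `j` -/
def sp {N : ℕ} (a : Fin N → Bool) (d : Fin n → ZMod 2) (j : ℕ) : ZMod 2 :=
  ∑ i : Fin n, ext a (i + j) * d i

/-- flip the bit `k` -/
def flip {N : ℕ} (k : Fin N) (a : Fin N → Bool) : Fin N → Bool := Function.update a k (!a k)

lemma flip_flip {N : ℕ} (k : Fin N) (a : Fin N → Bool) : flip k (flip k a) = a := by
  unfold flip
  simp

lemma ext_flip {N : ℕ} (k : Fin N) (a : Fin N → Bool) (i : ℕ) :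
    ext (flip k a) i = ext a i + if i = k then 1 else 0 := by
  unfold ext flip
  by_cases h : i < N
  · rw [dif_pos h, dif_pos h]
    by_cases hik : i = k
    · have : (⟨i, h⟩ : Fin N) = k := Fin.ext hik
      rw [if_pos hik, this, Function.update_self, b2_not]
    · have : (⟨i, h⟩ : Fin N) ≠ k := fun h' => hik (by rw [← h'])
      rw [if_neg hik, Function.update_of_ne this, add_zero]
  · rw [dif_neg h, dif_neg h]
    have hik : i ≠ k := fun h' => h (by rw [h']; exact k.2)
    rw [if_neg hik, add_zero]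

lemma sp_flip {N : ℕ} (k : Fin N) (a : Fin N → Bool) (d : Fin n → ZMod 2) (j : ℕ) :
    sp (flip k a) d j = sp a d j + ∑ i : Fin n, if (i : ℕ) + j = k then d i else 0 := by
  unfold sp
  rw [← Finset.sum_add_distrib]
  refine Finset.sum_congr rfl fun i _ => ?_
  rw [ext_flip]
  split_ifs <;> ring

lemma card_sp {N m : ℕ} (d : Fin n → ZMod 2) (i0 : Fin n) (h0 : d i0 = 1)
    (hlt : ∀ i < i0, d i = 0) (hN : ∀ j : Fin m, (i0 : ℕ) + j < N) (J : Finset (Fin m)) :
    (univ.filter fun a : Fin N → Bool => ∀ j ∈ J, sp a d j = 0).card * 2 ^ J.card = 2 ^ N := by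
  classical
  induction J using Finset.induction_on_min with
  | empty => simp
  | insert j0 J hj ih =>
    have hj0 : j0 ∉ J := fun h => lt_irrefl _ (hj j0 h)
    rw [card_insert_of_notMem hj0, pow_succ]
    set k : Fin N := ⟨i0 + j0, hN j0⟩ with hk
    have hfJ : ∀ (a : Fin N → Bool) (j : Fin m), j ∈ J → sp (flip k a) d j = sp a d j := by
      intro a j hjJ
      rw [sp_flip]
      have : ∑ i : Fin n, (if (i : ℕ) + j = k then d i else 0) = 0 := by
        apply Finset.sum_eq_zero
        intro i _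
        split_ifs with h
        · apply hlt
          rw [Fin.lt_def]
          have h1 := hj j hjJ
          rw [Fin.lt_def] at h1
          simp only [hk] at h
          omega
        · rfl
      rw [this, add_zero]
    have hf0 : ∀ a : Fin N → Bool, sp (flip k a) d j0 = sp a d j0 + 1 := by
      intro a
      rw [sp_flip]
      congr 1
      rw [Finset.sum_eq_single i0]
      · rw [if_pos (by simp [hk]), h0]
      · intro i _ hi
        rw [if_neg]
        intro h
        simp only [hk] at h
        exact hi (Fin.ext (by omega))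
      · intro h; exact absurd (mem_univ _) h
    set P := univ.filter fun a : Fin N → Bool => ∀ j ∈ J, sp a d j = 0 with hP
    set P0 := univ.filter fun a : Fin N → Bool => ∀ j ∈ insert j0 J, sp a d j = 0 with hP0
    set P1 := univ.filter fun a : Fin N → Bool => (∀ j ∈ J, sp a d j = 0) ∧ sp a d j0 = 1 with hP1
    have hz : ∀ x : ZMod 2, x = 0 ∨ x = 1 := by decide
    have h01 : ((1 : ZMod 2) + 1) = 0 := by decide
    have hne : (1 : ZMod 2) ≠ 0 := by decide
    have hc1 : P0.card = P1.card := by
      refine Finset.card_bij' (fun a _ => flip k a) (fun a _ => flip k a) ?_ ?_ ?_ ?_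
      · intro a ha
        have ha' := (mem_filter.1 ha).2
        rw [hP1, mem_filter]
        refine ⟨mem_univ _, fun j hjJ => ?_, ?_⟩
        · rw [hfJ a j hjJ]; exact ha' j (mem_insert_of_mem hjJ)
        · rw [hf0, ha' j0 (mem_insert_self _ _), zero_add]
      · intro a ha
        have ha' := (mem_filter.1 ha).2
        rw [hP0, mem_filter]
        refine ⟨mem_univ _, fun j hjI => ?_⟩
        rcases mem_insert.1 hjI with rfl | hjJ
        · rw [hf0, ha'.2, h01]
        · rw [hfJ a j hjJ]; exact ha'.1 j hjJ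
      · intro a _; exact flip_flip k a
      · intro a _; exact flip_flip k a
    have hc2 : P.card = P0.card + P1.card := by
      rw [← card_union_of_disjoint]
      · congr 1
        ext a
        simp only [hP, hP0, hP1, mem_union, mem_filter, mem_univ, true_and, mem_insert,
          forall_eq_or_imp]
        constructor
        · intro h
          rcases hz (sp a d j0) with h' | h'
          · exact Or.inl ⟨h', h⟩
          · exact Or.inr ⟨h, h'⟩
        · rintro (h | h)
          · exact h.2
          · exact h.1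
      · rw [disjoint_left]
        intro a ha hb
        have ha' := (mem_filter.1 ha).2 j0 (mem_insert_self _ _)
        have hb' := (mem_filter.1 hb).2.2
        rw [ha'] at hb'
        exact hne hb'.symm
    rw [← ih]
    have : P.card = 2 * P0.card := by omega
    rw [this]
    ring

section Index

variable {w m : ℕ}

/-- the difference of two inputs -/
def diff (x x' : Fin n → Bool) : Fin n → ZMod 2 := fun i => b2 (x i) + b2 (x' i)

lemma diff_ne (x x' : Fin n → Bool) (h : x ≠ x') :
    ∃ i0 : Fin n, diff x x' i0 = 1 ∧ ∀ i < i0, diff x x' i = 0 := by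
  classical
  obtain ⟨i1, hi1⟩ := Function.ne_iff.1 h
  have hex : (univ.filter fun i : Fin n => x i ≠ x' i).Nonempty := ⟨i1, by simp [hi1]⟩
  refine ⟨(univ.filter fun i : Fin n => x i ≠ x' i).min' hex, ?_, ?_⟩
  · have h1 := (mem_filter.1 (Finset.min'_mem _ hex)).2
    have key : ∀ b c : Bool, b ≠ c → b2 b + b2 c = 1 := by decide
    exact key _ _ h1
  · intro i hi
    have key : ∀ b c : Bool, b = c → b2 b + b2 c = 0 := by decide
    apply key
    by_contra hne
    have := Finset.min'_le (univ.filter fun i : Fin n => x i ≠ x' i) i (by simp [hne])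
    exact absurd hi (not_lt.2 this)

/-- the index computed from `x` for the `j`-th table -/
def idx (hm : m ≤ n) (α : Fin w → Fin (2 * n) → Bool) (x : Fin n → Bool) (j : Fin m) :
    Fin w → Bool := fun l =>
  decide ((∑ i : Fin n, if α l ⟨i + j, by omega⟩ && x i then 1 else 0) % 2 = 1)

lemma idx_eq_iff (hm : m ≤ n) (α : Fin w → Fin (2 * n) → Bool) (x x' : Fin n → Bool) (j : Fin m) :
    idx hm α x j = idx hm α x' j ↔ ∀ l, sp (α l) (diff x x') j = 0 := by
  have hcast : ∀ (y : Fin n → Bool) (l : Fin w),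
      (((∑ i : Fin n, if α l ⟨i + j, by omega⟩ && y i then 1 else 0 : ℕ)) : ZMod 2) =
        ∑ i : Fin n, ext (α l) (i + j) * b2 (y i) := by
    intro y l
    rw [Nat.cast_sum]
    refine Finset.sum_congr rfl fun i _ => ?_
    unfold ext
    rw [dif_pos (by omega : (i : ℕ) + j < 2 * n)]
    cases α l ⟨i + j, by omega⟩ <;> cases y i <;> simp [b2]
  have hsp : ∀ l, sp (α l) (diff x x') j = ∑ i : Fin n, ext (α l) (i + j) * b2 (x i) +
      ∑ i : Fin n, ext (α l) (i + j) * b2 (x' i) := by
    intro l
    unfold sp diff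
    rw [← Finset.sum_add_distrib]
    exact Finset.sum_congr rfl fun i _ => by ring
  have hz : ∀ a b : ZMod 2, a + b = 0 ↔ a = b := by decide
  have hmod : ∀ A B : ℕ, (decide (A % 2 = 1) = decide (B % 2 = 1)) ↔ (A : ZMod 2) = (B : ZMod 2) := by
    intro A B
    rw [ZMod.natCast_eq_natCast_iff', decide_eq_decide]
    omega
  constructor
  · intro h l
    rw [hsp, hz, ← hcast, ← hcast]
    exact (hmod _ _).1 (congrFun h l)
  · intro h
    funext l
    have := h l
    rw [hsp, hz, ← hcast, ← hcast] at this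
    exact (hmod _ _).2 this

/-- the positions where two inputs have the same index -/
def coll (hm : m ≤ n) (α : Fin w → Fin (2 * n) → Bool) (x x' : Fin n → Bool) : Finset (Fin m) :=
  univ.filter fun j => idx hm α x j = idx hm α x' j

lemma card_subset_coll (hm : m ≤ n) (x x' : Fin n → Bool) (h : x ≠ x') (J : Finset (Fin m)) :
    (univ.filter fun α : Fin w → Fin (2 * n) → Bool => J ⊆ coll hm α x x').card *
      2 ^ (w * J.card) = 2 ^ (2 * n * w) := by
  classical
  obtain ⟨i0, h0, hlt⟩ := diff_ne x x' h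
  have h1 : (univ.filter fun α : Fin w → Fin (2 * n) → Bool => J ⊆ coll hm α x x') =
      Fintype.piFinset fun _ : Fin w =>
        univ.filter fun a : Fin (2 * n) → Bool => ∀ j ∈ J, sp a (diff x x') j = 0 := by
    ext α
    simp only [mem_filter, mem_univ, true_and, Fintype.mem_piFinset, Finset.subset_iff, coll,
      idx_eq_iff]
    constructor
    · intro h l j hj; exact h hj l
    · intro h j hj l; exact h l j hj
  rw [h1, Fintype.card_piFinset, prod_const, card_univ, Fintype.card_fin]
  have h2 := card_sp (N := 2 * n) (diff x x') i0 h0 hlt (fun j : Fin m => by omega) J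
  rw [mul_comm w, pow_mul 2 J.card, ← mul_pow, h2, ← pow_mul]

lemma card_many_coll (hm : m ≤ n) (x x' : Fin n → Bool) (h : x ≠ x') (a : ℕ) :
    ((univ.filter fun α : Fin w → Fin (2 * n) → Bool => a ≤ (coll hm α x x').card).card : ℝ) ≤
      2 ^ m * (2 ^ (2 * n * w) / 2 ^ (w * a)) := by
  classical
  have hsub : (univ.filter fun α : Fin w → Fin (2 * n) → Bool => a ≤ (coll hm α x x').card) ⊆
      ((univ : Finset (Fin m)).powersetCard a).biUnion fun J =>
        univ.filter fun α : Fin w → Fin (2 * n) → Bool => J ⊆ coll hm α x x' := by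
    intro α hα
    obtain ⟨J, hJ, hJc⟩ := Finset.exists_subset_card_eq (mem_filter.1 hα).2
    rw [mem_biUnion]
    exact ⟨J, by simp [mem_powersetCard, hJc], by simp [hJ]⟩
  have h1 : ∀ J ∈ (univ : Finset (Fin m)).powersetCard a,
      ((univ.filter fun α : Fin w → Fin (2 * n) → Bool => J ⊆ coll hm α x x').card : ℝ) ≤
        2 ^ (2 * n * w) / 2 ^ (w * a) := by
    intro J hJ
    have hJc := (mem_powersetCard.1 hJ).2
    rw [le_div_iff₀ (by positivity), ← hJc]
    exact_mod_cast (card_subset_coll hm x x' h J).le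
  calc ((univ.filter fun α : Fin w → Fin (2 * n) → Bool => a ≤ (coll hm α x x').card).card : ℝ)
      ≤ ∑ J ∈ (univ : Finset (Fin m)).powersetCard a,
        ((univ.filter fun α : Fin w → Fin (2 * n) → Bool => J ⊆ coll hm α x x').card : ℝ) := by
        exact_mod_cast (card_le_card hsub).trans card_biUnion_le
    _ ≤ ∑ J ∈ (univ : Finset (Fin m)).powersetCard a, (2 : ℝ) ^ (2 * n * w) / 2 ^ (w * a) :=
        Finset.sum_le_sum h1
    _ = (m.choose a : ℝ) * (2 ^ (2 * n * w) / 2 ^ (w * a)) := by
        rw [sum_const, card_powersetCard, card_univ, Fintype.card_fin, nsmul_eq_mul]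
    _ ≤ 2 ^ m * (2 ^ (2 * n * w) / 2 ^ (w * a)) := by
        apply mul_le_mul_of_nonneg_right _ (by positivity)
        exact_mod_cast Nat.choose_le_two_pow m a

/-- tables that are constant on `S` -/
lemma card_table (b : Bool) (S : Finset (Fin w → Bool)) :
    ((univ.filter fun h : (Fin w → Bool) → Bool => ∀ v ∈ S, h v = b).card) * 2 ^ S.card =
      2 ^ (2 ^ w) := by
  classical
  have h1 : (univ.filter fun h : (Fin w → Bool) → Bool => ∀ v ∈ S, h v = b) =
      Fintype.piFinset (fun v => if v ∈ S then ({b} : Finset Bool) else univ) := by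
    ext h
    simp only [mem_filter, mem_univ, true_and, Fintype.mem_piFinset]
    constructor
    · intro hh v
      split_ifs with hv
      · simp [hh v hv]
      · simp
    · intro hh v hv
      have := hh v
      rw [if_pos hv] at this
      simpa using this
  rw [h1, Fintype.card_piFinset]
  have h2 : ∀ v : Fin w → Bool, (if v ∈ S then ({b} : Finset Bool) else univ).card =
      if v ∈ S then 1 else 2 := by
    intro v; split_ifs <;> simp
  simp_rw [h2]
  rw [Finset.prod_ite]
  simp only [prod_const_one, one_mul, prod_const]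
  rw [← pow_add]
  congr 1
  have h4 := Finset.card_filter_add_card_filter_not (s := (univ : Finset (Fin w → Bool)))
    (fun v => v ∈ S)
  have h5 : (univ.filter fun v : Fin w → Bool => v ∈ S) = S := by ext; simp
  rw [h5] at h4
  simp only [card_univ, Fintype.card_pi, Fintype.card_bool, prod_const, card_univ,
    Fintype.card_fin] at h4
  omega

lemma card_const {T : ℕ} {ι : Type} [Fintype ι] [Nonempty ι] (hT : Fintype.card ι = T)
    (v : ι → Fin w → Bool) (hv : Function.Injective v) :
    ((univ.filter fun h : (Fin w → Bool) → Bool => ∀ p q, h (v p) = h (v q)).card : ℝ) ≤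
      2 ^ (2 ^ w) / 2 ^ (T - 1) := by
  classical
  set S : Finset (Fin w → Bool) := univ.image v with hS
  have hSc : S.card = T := by rw [hS, card_image_of_injective _ hv, card_univ, hT]
  have hT1 : 1 ≤ T := by rw [← hT]; exact Fintype.card_pos
  have hsub : (univ.filter fun h : (Fin w → Bool) → Bool => ∀ p q, h (v p) = h (v q)) ⊆
      (univ.filter fun h : (Fin w → Bool) → Bool => ∀ u ∈ S, h u = true) ∪
      univ.filter fun h : (Fin w → Bool) → Bool => ∀ u ∈ S, h u = false := by
    intro h hh
    have hh' := (mem_filter.1 hh).2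
    obtain ⟨p0⟩ := (inferInstance : Nonempty ι)
    rw [mem_union, mem_filter, mem_filter]
    cases hb : h (v p0) with
    | true =>
      left
      refine ⟨mem_univ _, fun u hu => ?_⟩
      obtain ⟨p, _, rfl⟩ := mem_image.1 hu
      rw [hh' p p0, hb]
    | false =>
      right
      refine ⟨mem_univ _, fun u hu => ?_⟩
      obtain ⟨p, _, rfl⟩ := mem_image.1 hu
      rw [hh' p p0, hb]
  have h1 := (card_le_card hsub).trans (card_union_le _ _)
  have h2 := card_table true S
  have h3 := card_table false S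
  rw [hSc] at h2 h3
  rw [le_div_iff₀ (by positivity)]
  have h4 : (univ.filter fun h : (Fin w → Bool) → Bool => ∀ p q, h (v p) = h (v q)).card *
      2 ^ T ≤ 2 * 2 ^ (2 ^ w) := by
    calc _ ≤ ((univ.filter fun h : (Fin w → Bool) → Bool => ∀ u ∈ S, h u = true).card +
          (univ.filter fun h : (Fin w → Bool) → Bool => ∀ u ∈ S, h u = false).card) * 2 ^ T :=
          Nat.mul_le_mul_right _ h1
      _ = 2 * 2 ^ (2 ^ w) := by rw [add_mul, h2, h3]; ring
  have h5 : 2 ^ T = 2 * 2 ^ (T - 1) := by
    rw [← pow_succ']; congr 1; omega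
  have h6 : (univ.filter fun h : (Fin w → Bool) → Bool => ∀ p q, h (v p) = h (v q)).card *
      2 ^ (T - 1) ≤ 2 ^ (2 ^ w) := by
    have : 2 * ((univ.filter fun h : (Fin w → Bool) → Bool => ∀ p q, h (v p) = h (v q)).card *
      2 ^ (T - 1)) ≤ 2 * 2 ^ (2 ^ w) := by
      calc _ = (univ.filter fun h : (Fin w → Bool) → Bool => ∀ p q, h (v p) = h (v q)).card *
            2 ^ T := by rw [h5]; ring
        _ ≤ _ := h4
    omega
  exact_mod_cast h6

end Index


section Union

variable {w m : ℕ}

/-- seeds of the hash functions -/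
abbrev Seed (n w m : ℕ) : Type := (Fin w → Fin (2 * n) → Bool) × (Fin m → (Fin w → Bool) → Bool)

lemma card_seed : Fintype.card (Seed n w m) = 2 ^ (2 * n * w) * 2 ^ (2 ^ w * m) := by
  simp only [Seed, Fintype.card_prod, Fintype.card_pi, Fintype.card_bool, prod_const, card_univ,
    Fintype.card_fin]
  rw [← pow_mul, ← pow_mul]

/-- all points have the same hash value -/
def AllEq (hm : m ≤ n) {ι : Type} (z : ι → Fin n → Bool) (c : Seed n w m) : Prop :=
  ∀ j p q, c.2 j (idx hm c.1 (z p) j) = c.2 j (idx hm c.1 (z q) j)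

open Classical in
lemma card_tables (hm : m ≤ n) {ι : Type} [Fintype ι] [Nonempty ι] (z : ι → Fin n → Bool)
    (α : Fin w → Fin (2 * n) → Bool) (a : ℕ) (ha : Fintype.card ι ^ 2 * a ≤ m)
    (hα : ∀ p q, p ≠ q → (coll hm α (z p) (z q)).card < a) :
    ((univ.filter fun g : Fin m → (Fin w → Bool) → Bool =>
      ∀ j p q, g j (idx hm α (z p) j) = g j (idx hm α (z q) j)).card : ℝ) ≤
      2 ^ (2 ^ w * m) / 2 ^ ((Fintype.card ι - 1) * (m - Fintype.card ι ^ 2 * a)) := by
  set T := Fintype.card ι with hT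
  set B : Finset (Fin m) := ((univ : Finset (ι × ι)).filter fun p => p.1 ≠ p.2).biUnion
    fun p => coll hm α (z p.1) (z p.2) with hB
  have hBc : B.card ≤ T ^ 2 * a := by
    refine card_biUnion_le.trans ?_
    calc ∑ p ∈ (univ : Finset (ι × ι)).filter (fun p => p.1 ≠ p.2),
          (coll hm α (z p.1) (z p.2)).card
        ≤ ∑ p ∈ (univ : Finset (ι × ι)).filter (fun p => p.1 ≠ p.2), a :=
          Finset.sum_le_sum fun p hp => (hα p.1 p.2 (mem_filter.1 hp).2).le
      _ ≤ ∑ _p ∈ (univ : Finset (ι × ι)), a := Finset.sum_le_sum_of_subset (filter_subset _ _)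
      _ = T ^ 2 * a := by
          simp only [sum_const, card_univ, Fintype.card_prod, smul_eq_mul, ← hT]
          ring
  have h1 : (univ.filter fun g : Fin m → (Fin w → Bool) → Bool =>
      ∀ j p q, g j (idx hm α (z p) j) = g j (idx hm α (z q) j)) =
      Fintype.piFinset fun j : Fin m => univ.filter fun h : (Fin w → Bool) → Bool =>
        ∀ p q, h (idx hm α (z p) j) = h (idx hm α (z q) j) := by
    ext g
    simp [Fintype.mem_piFinset]
  rw [h1, Fintype.card_piFinset]
  push_cast
  have h2 : ∀ j : Fin m, ((univ.filter fun h : (Fin w → Bool) → Bool =>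
        ∀ p q, h (idx hm α (z p) j) = h (idx hm α (z q) j)).card : ℝ) ≤
      2 ^ (2 ^ w) / (if j ∈ B then 1 else 2 ^ (T - 1)) := by
    intro j
    by_cases hj : j ∈ B
    · rw [if_pos hj, div_one]
      have : (univ.filter fun h : (Fin w → Bool) → Bool =>
        ∀ p q, h (idx hm α (z p) j) = h (idx hm α (z q) j)).card ≤ 2 ^ (2 ^ w) := by
        refine (card_le_univ _).trans ?_
        simp
      exact_mod_cast this
    · rw [if_neg hj]
      refine card_const hT.symm (fun p => idx hm α (z p) j) ?_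
      intro p q hpq
      by_contra hne
      apply hj
      rw [hB, mem_biUnion]
      exact ⟨(p, q), by simpa using hne, by simpa [coll] using hpq⟩
  calc ∏ j : Fin m, ((univ.filter fun h : (Fin w → Bool) → Bool =>
        ∀ p q, h (idx hm α (z p) j) = h (idx hm α (z q) j)).card : ℝ)
      ≤ ∏ j : Fin m, ((2 : ℝ) ^ (2 ^ w) / (if j ∈ B then 1 else 2 ^ (T - 1))) :=
        Finset.prod_le_prod (fun j _ => by positivity) fun j _ => h2 j
    _ = 2 ^ (2 ^ w * m) / 2 ^ ((T - 1) * (m - B.card)) := by
        rw [Finset.prod_div_distrib, Finset.prod_const, card_univ, Fintype.card_fin, ← pow_mul]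
        congr 1
        rw [Finset.prod_ite]
        simp only [prod_const_one, one_mul, prod_const]
        rw [← pow_mul]
        congr 2
        have h4 := Finset.card_filter_add_card_filter_not (s := (univ : Finset (Fin m)))
          (fun v => v ∈ B)
        have h5 : (univ.filter fun v : Fin m => v ∈ B) = B := by ext; simp
        rw [h5, card_univ, Fintype.card_fin] at h4
        omega
    _ ≤ 2 ^ (2 ^ w * m) / 2 ^ ((T - 1) * (m - T ^ 2 * a)) := by
        apply div_le_div_of_nonneg_left (by positivity) (by positivity)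
        apply pow_le_pow_right₀ (by norm_num)
        exact Nat.mul_le_mul_left _ (by omega)

open Classical in
lemma card_allEq (hm : m ≤ n) {ι : Type} [Fintype ι] [Nonempty ι] (z : ι → Fin n → Bool)
    (hz : Function.Injective z) (a : ℕ) (ha : Fintype.card ι ^ 2 * a ≤ m) :
    ((univ.filter fun c : Seed n w m => AllEq hm z c).card : ℝ) ≤
      (2 ^ (2 * n * w) * 2 ^ (2 ^ w * m)) * ((Fintype.card ι : ℝ) ^ 2 * 2 ^ m / 2 ^ (w * a) +
        1 / 2 ^ ((Fintype.card ι - 1) * (m - Fintype.card ι ^ 2 * a))) := by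
  set T := Fintype.card ι with hT
  set bad : Finset (Fin w → Fin (2 * n) → Bool) := univ.filter fun α =>
    ∃ p q, p ≠ q ∧ a ≤ (coll hm α (z p) (z q)).card with hbad
  have hbadc : (bad.card : ℝ) ≤ (T : ℝ) ^ 2 * (2 ^ m * (2 ^ (2 * n * w) / 2 ^ (w * a))) := by
    have hsub : bad ⊆ ((univ : Finset (ι × ι)).filter fun p => p.1 ≠ p.2).biUnion
        (fun p => univ.filter fun α : Fin w → Fin (2 * n) → Bool =>
          a ≤ (coll hm α (z p.1) (z p.2)).card) := by
      intro α hα
      obtain ⟨p, q, hpq, h⟩ := (mem_filter.1 hα).2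
      rw [mem_biUnion]
      exact ⟨(p, q), by simpa using hpq, by simpa using h⟩
    have h1 : (bad.card : ℝ) ≤ ∑ p ∈ (univ : Finset (ι × ι)).filter (fun p => p.1 ≠ p.2),
        ((univ.filter fun α : Fin w → Fin (2 * n) → Bool =>
          a ≤ (coll hm α (z p.1) (z p.2)).card).card : ℝ) := by
      exact_mod_cast (card_le_card hsub).trans card_biUnion_le
    refine h1.trans ?_
    calc ∑ p ∈ (univ : Finset (ι × ι)).filter (fun p => p.1 ≠ p.2),
          ((univ.filter fun α : Fin w → Fin (2 * n) → Bool =>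
            a ≤ (coll hm α (z p.1) (z p.2)).card).card : ℝ)
        ≤ ∑ p ∈ (univ : Finset (ι × ι)).filter (fun p => p.1 ≠ p.2),
          (2 ^ m * (2 ^ (2 * n * w) / 2 ^ (w * a)) : ℝ) := by
          apply Finset.sum_le_sum
          intro p hp
          exact card_many_coll hm _ _ (fun h => (mem_filter.1 hp).2 (hz h)) a
      _ ≤ ∑ _p ∈ (univ : Finset (ι × ι)), (2 ^ m * (2 ^ (2 * n * w) / 2 ^ (w * a)) : ℝ) :=
          Finset.sum_le_sum_of_subset_of_nonneg (filter_subset _ _) fun _ _ _ => by positivity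
      _ = _ := by
          simp only [sum_const, card_univ, Fintype.card_prod, nsmul_eq_mul, ← hT]
          push_cast
          ring
  have h1 : (univ.filter fun c : Seed n w m => AllEq hm z c).card =
      ∑ α : Fin w → Fin (2 * n) → Bool, (univ.filter fun g : Fin m → (Fin w → Bool) → Bool =>
        ∀ j p q, g j (idx hm α (z p) j) = g j (idx hm α (z q) j)).card := by
    rw [← Finset.card_sigma]
    refine Finset.card_bij (fun c _ => ⟨c.1, c.2⟩) ?_ ?_ ?_
    · intro c hc
      simp only [mem_sigma, mem_univ, true_and, mem_filter]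
      exact (mem_filter.1 hc).2
    · intro c _ d _ h
      simp only [Sigma.mk.injEq] at h
      exact Prod.ext h.1 (eq_of_heq h.2)
    · intro c hc
      simp only [mem_sigma, mem_univ, true_and, mem_filter] at hc
      exact ⟨(c.1, c.2), by simpa [AllEq] using hc, rfl⟩
  rw [h1]
  push_cast
  have hle : ∀ α : Fin w → Fin (2 * n) → Bool,
      ((univ.filter fun g : Fin m → (Fin w → Bool) → Bool =>
        ∀ j p q, g j (idx hm α (z p) j) = g j (idx hm α (z q) j)).card : ℝ) ≤
      (if α ∈ bad then (2 : ℝ) ^ (2 ^ w * m) else 0) +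
        2 ^ (2 ^ w * m) / 2 ^ ((T - 1) * (m - T ^ 2 * a)) := by
    intro α
    by_cases hα : α ∈ bad
    · rw [if_pos hα]
      have h2 : (univ.filter fun g : Fin m → (Fin w → Bool) → Bool =>
        ∀ j p q, g j (idx hm α (z p) j) = g j (idx hm α (z q) j)).card ≤ 2 ^ (2 ^ w * m) := by
        refine (card_le_univ _).trans ?_
        simp only [Fintype.card_pi, Fintype.card_bool, prod_const, card_univ, Fintype.card_fin]
        rw [← pow_mul]
      have h3 : ((univ.filter fun g : Fin m → (Fin w → Bool) → Bool =>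
        ∀ j p q, g j (idx hm α (z p) j) = g j (idx hm α (z q) j)).card : ℝ) ≤
          2 ^ (2 ^ w * m) := by exact_mod_cast h2
      have h4 : (0 : ℝ) ≤ 2 ^ (2 ^ w * m) / 2 ^ ((T - 1) * (m - T ^ 2 * a)) := by positivity
      linarith
    · rw [if_neg hα, zero_add]
      refine card_tables hm z α a ha ?_
      intro p q hpq
      by_contra hcon
      exact hα (by rw [hbad, mem_filter]; exact ⟨mem_univ _, p, q, hpq, not_lt.1 hcon⟩)
  calc ∑ α : Fin w → Fin (2 * n) → Bool,
        ((univ.filter fun g : Fin m → (Fin w → Bool) → Bool =>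
          ∀ j p q, g j (idx hm α (z p) j) = g j (idx hm α (z q) j)).card : ℝ)
      ≤ ∑ α : Fin w → Fin (2 * n) → Bool, ((if α ∈ bad then (2 : ℝ) ^ (2 ^ w * m) else 0) +
        2 ^ (2 ^ w * m) / 2 ^ ((T - 1) * (m - T ^ 2 * a))) := Finset.sum_le_sum fun α _ => hle α
    _ = bad.card * 2 ^ (2 ^ w * m) +
        2 ^ (2 * n * w) * (2 ^ (2 ^ w * m) / 2 ^ ((T - 1) * (m - T ^ 2 * a))) := by
        rw [Finset.sum_add_distrib, Finset.sum_ite_mem, univ_inter, sum_const, sum_const,
          nsmul_eq_mul, nsmul_eq_mul, card_univ]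
        simp only [Fintype.card_pi, Fintype.card_bool, prod_const, card_univ, Fintype.card_fin]
        rw [← pow_mul]
        push_cast
        ring
    _ ≤ (T : ℝ) ^ 2 * (2 ^ m * (2 ^ (2 * n * w) / 2 ^ (w * a))) * 2 ^ (2 ^ w * m) +
        2 ^ (2 * n * w) * (2 ^ (2 ^ w * m) / 2 ^ ((T - 1) * (m - T ^ 2 * a))) :=
        add_le_add (mul_le_mul_of_nonneg_right hbadc (by positivity)) le_rfl
    _ = _ := by ring

/-- the points of the `t × t` rectangle -/
def pt {t : ℕ} (A : Finset (Fin n)) (r : Fin t → Fin n → Bool) (p : Fin t × Fin t) :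
    Fin n → Bool := mix A (r p.1) (r p.2)

/-- different rows and different columns -/
def Dis {t : ℕ} (A : Finset (Fin n)) (r : Fin t → Fin n → Bool) : Prop :=
  ∀ i j, i ≠ j → (∃ x ∈ A, r i x ≠ r j x) ∧ ∃ x, x ∉ A ∧ r i x ≠ r j x

lemma pt_inj {t : ℕ} (A : Finset (Fin n)) (r : Fin t → Fin n → Bool) (h : Dis A r) :
    Function.Injective (pt A r) := by
  intro p q hpq
  apply Prod.ext
  · by_contra hne
    obtain ⟨x, hx, hxx⟩ := (h p.1 q.1 hne).1
    have := congrFun hpq x
    simp only [pt, mix, if_pos hx] at this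
    exact hxx this
  · by_contra hne
    obtain ⟨x, hx, hxx⟩ := (h p.2 q.2 hne).2
    have := congrFun hpq x
    simp only [pt, mix, if_neg hx] at this
    exact hxx this

open Classical in
lemma exists_seed (hm : m ≤ n) {t : ℕ} (ht : 0 < t) (a : ℕ) (ha : (t * t) ^ 2 * a ≤ m)
    (h1 : n + n * t + 2 + (t * t) ^ 2 + m ≤ w * a)
    (h2 : n + n * t + 2 ≤ (t * t - 1) * (m - (t * t) ^ 2 * a)) :
    ∃ c : Seed n w m, ∀ (A : Finset (Fin n)) (r : Fin t → Fin n → Bool), Dis A r →
      ¬ AllEq hm (pt A r) c := by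
  by_contra hcon
  push Not at hcon
  have : Nonempty (Fin t × Fin t) := ⟨(⟨0, ht⟩, ⟨0, ht⟩)⟩
  have hι : Fintype.card (Fin t × Fin t) = t * t := by simp
  have hcover : (univ : Finset (Seed n w m)) ⊆
      ((univ : Finset (Finset (Fin n) × (Fin t → Fin n → Bool))).filter
        fun p => Dis p.1 p.2).biUnion
        (fun p => univ.filter fun c : Seed n w m => AllEq hm (pt p.1 p.2) c) := by
    intro c _
    obtain ⟨A, r, hs, h⟩ := hcon c
    rw [mem_biUnion]
    exact ⟨(A, r), by simpa using hs, by simpa using h⟩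
  set Q : ℝ := 2 ^ (2 * n * w) * 2 ^ (2 ^ w * m) with hQ
  have hQpos : 0 < Q := by positivity
  have hone : ∀ p ∈ (univ : Finset (Finset (Fin n) × (Fin t → Fin n → Bool))).filter
      (fun p => Dis p.1 p.2), ((univ.filter fun c : Seed n w m => AllEq hm (pt p.1 p.2) c).card : ℝ)
      ≤ Q * (2 / 2 ^ (n + n * t + 2)) := by
    intro p hp
    have h3 := card_allEq (w := w) hm (pt p.1 p.2) (pt_inj _ _ (mem_filter.1 hp).2) a
      (by rw [hι]; exact ha)
    refine h3.trans (mul_le_mul_of_nonneg_left ?_ hQpos.le)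
    rw [hι]
    have h4 : ((t * t : ℕ) : ℝ) ^ 2 * 2 ^ m / 2 ^ (w * a) ≤ 1 / 2 ^ (n + n * t + 2) := by
      rw [div_le_div_iff₀ (by positivity) (by positivity), one_mul]
      have h5 : ((t * t : ℕ) : ℝ) ^ 2 ≤ 2 ^ ((t * t) ^ 2) := by
        have : (t * t) ^ 2 ≤ 2 ^ ((t * t) ^ 2) := (Nat.lt_two_pow_self).le
        exact_mod_cast this
      calc ((t * t : ℕ) : ℝ) ^ 2 * 2 ^ m * 2 ^ (n + n * t + 2)
          ≤ 2 ^ ((t * t) ^ 2) * 2 ^ m * 2 ^ (n + n * t + 2) := by gcongr
        _ = 2 ^ (n + n * t + 2 + (t * t) ^ 2 + m) := by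
            rw [← pow_add, ← pow_add]; congr 1; ring
        _ ≤ 2 ^ (w * a) := pow_le_pow_right₀ (by norm_num) h1
    have h6 : (1 : ℝ) / 2 ^ ((t * t - 1) * (m - (t * t) ^ 2 * a)) ≤ 1 / 2 ^ (n + n * t + 2) := by
      apply one_div_le_one_div_of_le (by positivity)
      exact pow_le_pow_right₀ (by norm_num) h2
    calc _ ≤ (1 : ℝ) / 2 ^ (n + n * t + 2) + 1 / 2 ^ (n + n * t + 2) := add_le_add h4 h6
      _ = _ := by ring
  have hc := (card_le_card hcover).trans card_biUnion_le
  have hc' : Q ≤ ∑ p ∈ (univ : Finset (Finset (Fin n) × (Fin t → Fin n → Bool))).filter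
      (fun p => Dis p.1 p.2),
        ((univ.filter fun c : Seed n w m => AllEq hm (pt p.1 p.2) c).card : ℝ) := by
    rw [card_univ, card_seed] at hc
    rw [hQ]
    exact_mod_cast hc
  have h7 : Q ≤ 2 ^ (n + n * t) * (Q * (2 / 2 ^ (n + n * t + 2))) := by
    refine hc'.trans ((Finset.sum_le_sum hone).trans ?_)
    calc ∑ p ∈ (univ : Finset (Finset (Fin n) × (Fin t → Fin n → Bool))).filter
            (fun p => Dis p.1 p.2), Q * (2 / 2 ^ (n + n * t + 2))
        ≤ ∑ _p ∈ (univ : Finset (Finset (Fin n) × (Fin t → Fin n → Bool))),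
            Q * (2 / 2 ^ (n + n * t + 2)) :=
          Finset.sum_le_sum_of_subset_of_nonneg (filter_subset _ _) fun _ _ _ => by positivity
      _ = _ := by
          simp only [sum_const, card_univ, Fintype.card_prod, Fintype.card_finset,
            Fintype.card_fin, nsmul_eq_mul, Fintype.card_pi, Fintype.card_bool, prod_const]
          push_cast
          rw [← pow_mul, ← pow_add]
  have h8 : (2 : ℝ) ^ (n + n * t) * (Q * (2 / 2 ^ (n + n * t + 2))) = Q / 2 := by
    rw [pow_add _ (n + n * t) 2]
    field_simp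
  rw [h8] at h7
  linarith

end Union

/-- **Hash functions without rectangles.** For every `s` there are `w`, `t` such that for all large
`n` some seed has the property that no level set of the hash function `{0,1}^n → {0,1}^(n/s)`
contains a `t × t` rectangle. -/
theorem exists_hash_idx (s : ℕ) (hs : 1 ≤ s) (w0 : ℕ) : ∃ w t n0 : ℕ, w0 ≤ w ∧ ∀ n ≥ n0,
    ∃ (α : Fin w → Fin (2 * n) → Bool) (g : Fin (n / s) → (Fin w → Bool) → Bool),
      ∀ y : Fin (n / s) → Bool,
        RectFree {x : Fin n → Bool | ∀ j, g j (idx (Nat.div_le_self n s) α x j) = y j} t := by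
  set t : ℕ := 8 * s + 2 with ht
  set T2 : ℕ := (t * t) ^ 2 with hT2
  refine ⟨8 * s * T2 * (t + 3) + w0, t, 2 * T2 * s + T2 + 2, by omega, fun n hn => ?_⟩
  have hm : n / s ≤ n := Nat.div_le_self n s
  set m : ℕ := n / s with hmdef
  have hT2pos : 0 < T2 := by positivity
  have hm1 : 2 * T2 ≤ m := by
    rw [hmdef, Nat.le_div_iff_mul_le hs]
    omega
  have hnm : n ≤ 2 * (m * s) := by
    have h1 : n < (m + 1) * s := by
      rw [hmdef]
      have := Nat.lt_div_mul_add (a := n) (show 0 < s by omega)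
      linarith
    have h2 : s ≤ m * s := Nat.le_mul_of_pos_left s (by omega)
    nlinarith
  set a : ℕ := m / (2 * T2) with hadef
  have ha1 : 1 ≤ a := by
    rw [hadef]; exact (Nat.one_le_div_iff (by positivity)).2 hm1
  have ha2 : T2 * a * 2 ≤ m := by
    have := Nat.div_mul_le_self m (2 * T2)
    rw [← hadef] at this
    linarith
  have ha3 : m ≤ 4 * (T2 * a) := by
    have h1 := Nat.lt_div_mul_add (a := m) (show 0 < 2 * T2 by positivity)
    rw [← hadef] at h1
    have h2 : T2 ≤ T2 * a := Nat.le_mul_of_pos_right T2 ha1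
    nlinarith
  obtain ⟨c, hc⟩ := exists_seed (n := n) (w := 8 * s * T2 * (t + 3) + w0) (m := m) hm
    (t := t) (by omega) a (by rw [← hT2]; omega)
    (by
      rw [← hT2]
      have h1 : n ≤ 8 * s * (T2 * a) := by nlinarith
      have h2 : n * (t + 3) ≤ 8 * s * (T2 * a) * (t + 3) := Nat.mul_le_mul_right _ h1
      have h3 : 2 + T2 ≤ n := by omega
      nlinarith)
    (by
      rw [← hT2]
      have h1 : m ≤ 2 * (m - T2 * a) := by omega
      have h2 : (t * t - 1) * m ≤ 2 * ((t * t - 1) * (m - T2 * a)) := by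
        calc (t * t - 1) * m ≤ (t * t - 1) * (2 * (m - T2 * a)) := Nat.mul_le_mul_left _ h1
          _ = _ := by ring
      have h3 : 4 * s * (t + 1) + 4 ≤ t * t - 1 := by
        have : 4 * s * (t + 1) + 4 + 1 ≤ t * t := by rw [ht]; nlinarith
        omega
      have h4 : (4 * s * (t + 1) + 4) * m ≤ (t * t - 1) * m := Nat.mul_le_mul_right _ h3
      have h5 : 2 * (n + n * t + 2) ≤ (4 * s * (t + 1) + 4) * m := by
        have h6 : n * (t + 1) ≤ 2 * (m * s) * (t + 1) := Nat.mul_le_mul_right _ hnm
        nlinarith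
      omega)
  refine ⟨c.1, c.2, fun y => ?_⟩
  intro A u v hu hv
  by_contra hcon
  push Not at hcon
  let r : Fin t → Fin n → Bool := fun i => mix A (u i) (v i)
  have hdis : Dis A r := by
    intro i j hij
    obtain ⟨x, hx, hxx⟩ := hu i j hij
    obtain ⟨x', hx', hxx'⟩ := hv i j hij
    exact ⟨⟨x, hx, by simpa [r, mix, hx] using hxx⟩, ⟨x', hx', by simpa [r, mix, hx'] using hxx'⟩⟩
  apply hc A r hdis
  have hpt : ∀ p, pt A r p = mix A (u p.1) (v p.2) := by
    intro p
    funext x
    by_cases hx : x ∈ A <;> simp [pt, mix, hx, r]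
  intro j p q
  have h1 := hcon p.1 p.2
  have h2 := hcon q.1 q.2
  rw [← hpt] at h1 h2
  exact (h1 j).trans (h2 j).symm

/-- The statement of `exists_hash_idx`, written out. -/
theorem exists_hash (s : ℕ) (hs : 1 ≤ s) (w0 : ℕ) : ∃ w t n0 : ℕ, w0 ≤ w ∧ ∀ n ≥ n0,
    ∃ (α : Fin w → Fin (2 * n) → Bool) (g : Fin (n / s) → (Fin w → Bool) → Bool),
      ∀ y : Fin (n / s) → Bool,
        RectFree {x : Fin n → Bool | ∀ j : Fin (n / s), g j (fun l => decide ((∑ i : Fin n,
          if α l ⟨i + j, by have := Nat.div_le_self n s; omega⟩ && x i then 1 else 0) % 2 = 1)) =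
            y j} t :=
  exists_hash_idx s hs w0

end Pool.Agent.KNL.Hash

namespace Pool.Agent.KNL

open Pool.Agent.SemRO

/-- Piece (H): hash functions without rectangles. -/
theorem exists_hash_ge (s : ℕ) (hs : 1 ≤ s) (w0 : ℕ) : ∃ w t n0 : ℕ, w0 ≤ w ∧ ∀ n, n0 ≤ n →
    ∃ (α : Fin w → ℕ → Bool) (g : ℕ → (Fin w → Bool) → Bool),
      ∀ σ : ℕ → Bool, RectFree {x : Fin n → Bool | ∀ j, j < n / s → hbit α g j x = σ j} t := by
  obtain ⟨w, t, n0, hw, h⟩ := Hash.exists_hash_idx s hs w0
  refine ⟨w, t, n0, hw, fun n hn => ?_⟩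
  obtain ⟨α, g, hF⟩ := h n hn
  have hm : n / s ≤ n := Nat.div_le_self n s
  refine ⟨fun l i => if hi : i < 2 * n then α l ⟨i, hi⟩ else false,
    fun j v => if hj : j < n / s then g ⟨j, hj⟩ v else false, fun σ => ?_⟩
  have key : {x : Fin n → Bool | ∀ j, j < n / s → hbit
      (fun l i => if hi : i < 2 * n then α l ⟨i, hi⟩ else false)
      (fun j v => if hj : j < n / s then g ⟨j, hj⟩ v else false) j x = σ j} =
      {x : Fin n → Bool | ∀ j : Fin (n / s), g j (Hash.idx hm α x j) = σ j} := by
    have hpt : ∀ (x : Fin n → Bool) (j : ℕ) (hj : j < n / s), hbit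
        (fun l i => if hi : i < 2 * n then α l ⟨i, hi⟩ else false)
        (fun j v => if hj : j < n / s then g ⟨j, hj⟩ v else false) j x =
        g ⟨j, hj⟩ (Hash.idx hm α x ⟨j, hj⟩) := by
      intro x j hj
      unfold hbit
      simp only [dif_pos hj]
      congr 1
      funext l
      unfold hpar Hash.idx
      congr 2
      congr 1
      refine Finset.sum_congr rfl fun i _ => ?_
      have hi : (i : ℕ) + j < 2 * n := by omega
      simp only [dif_pos hi]
      cases α l ⟨i + j, hi⟩ <;> cases x i <;> simp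
    ext x
    simp only [Set.mem_ofPred_eq]
    constructor
    · intro hx j
      rw [← hx j j.2]
      exact (hpt x j j.2).symm
    · intro hx j hj
      rw [hpt x j hj]
      exact hx ⟨j, hj⟩
  rw [key]
  exact hF fun j => σ j

theorem exists_hash (s : ℕ) (hs : 1 ≤ s) : HashOK s := by
  obtain ⟨w, t, n0, _, h⟩ := exists_hash_ge s hs 0
  exact ⟨w, t, n0, h⟩

end Pool.Agent.KNL
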