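import Mathlib
import Pool.Agent.SemRO.Core

/-! The hash function (shared definitions). -/

namespace Pool.Agent.KNL

open Pool.Agent.SemRO

/-- parity of the scalar product of `x` with the window of `α l` starting at `j` -/
def hpar {w n : ℕ} (α : Fin w → ℕ → Bool) (j : ℕ) (x : Fin n → Bool) (l : Fin w) : Bool :=
  decide ((∑ i : Fin n, (α l (i + j)).toNat * (x i).toNat) % 2 = 1)

/-- `j`-th hash bit -/
def hbit {w n : ℕ} (α : Fin w → ℕ → Bool) (g : ℕ → (Fin w → Bool) → Bool) (j : ℕ)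
    (x : Fin n → Bool) : Bool := g j (hpar α j x)

/-- what piece (H) has to provide -/
def HashOK (s : ℕ) : Prop := ∃ (w t n0 : ℕ), ∀ n, n0 ≤ n →
  ∃ (α : Fin w → ℕ → Bool) (g : ℕ → (Fin w → Bool) → Bool),
    ∀ σ : ℕ → Bool, RectFree {x : Fin n → Bool | ∀ j, j < n / s → hbit α g j x = σ j} t

end Pool.Agent.KNL
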