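import Pool.Agent.KNL.LangDefs
import Pool.Agent.KNL.HashDef

/-! The words with given parameters, and the language on them. -/

namespace Pool.Agent.KNL

open Pool.Agent.SemRO

/-- the word (as a function on positions) with parameters `T = 2^w`, `s`, `n`, `m`, random strings `α`,
tables `g`, vectors `X b` and prescribed values `Sg b` -/
def wd (w s n m : ℕ) (α : Fin w → ℕ → Bool) (g : ℕ → (Fin w → Bool) → Bool)
    (X Sg : ℕ → ℕ → Bool) (p : ℕ) : Bool :=
  if p < 2 ^ w then true else if p = 2 ^ w then false else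
  if p < 2 ^ w + 1 + s then true else if p = 2 ^ w + 1 + s then false else
  if p - (2 ^ w + s + 2) < 2 ^ w * (2 * n) then
    decide (∃ l : Fin w, (p - (2 ^ w + s + 2)) / (2 * n) = 2 ^ (l : ℕ) ∧
      α l ((p - (2 ^ w + s + 2)) % (2 * n)) = true)
  else if p - (2 ^ w + s + 2) - 2 ^ w * (2 * n) < m * 2 ^ w then
    g ((p - (2 ^ w + s + 2) - 2 ^ w * (2 * n)) / 2 ^ w)
      (fun l => ((p - (2 ^ w + s + 2) - 2 ^ w * (2 * n)) % 2 ^ w).testBit l)
  else if p - (2 ^ w + s + 2) - 2 ^ w * (2 * n) - m * 2 ^ w < 2 ^ w * (n + m) then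
    if (p - (2 ^ w + s + 2) - 2 ^ w * (2 * n) - m * 2 ^ w) % (n + m) < n then
      X ((p - (2 ^ w + s + 2) - 2 ^ w * (2 * n) - m * 2 ^ w) / (n + m))
        ((p - (2 ^ w + s + 2) - 2 ^ w * (2 * n) - m * 2 ^ w) % (n + m))
    else Sg ((p - (2 ^ w + s + 2) - 2 ^ w * (2 * n) - m * 2 ^ w) / (n + m))
        ((p - (2 ^ w + s + 2) - 2 ^ w * (2 * n) - m * 2 ^ w) % (n + m) - n)
  else false

variable {w s n m : ℕ} {α : Fin w → ℕ → Bool} {g : ℕ → (Fin w → Bool) → Bool} {X Sg : ℕ → ℕ → Bool}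

lemma wd_one {p : ℕ} (h : p < 2 ^ w) : wd w s n m α g X Sg p = true := by
  unfold wd; rw [if_pos h]

lemma wd_zero : wd w s n m α g X Sg (2 ^ w) = false := by
  unfold wd; rw [if_neg (by omega), if_pos rfl]

lemma wd_one' {p : ℕ} (h0 : 2 ^ w < p) (h : p < 2 ^ w + 1 + s) : wd w s n m α g X Sg p = true := by
  unfold wd; rw [if_neg (by omega), if_neg (by omega), if_pos h]

lemma wd_zero' : wd w s n m α g X Sg (2 ^ w + 1 + s) = false := by
  unfold wd; rw [if_neg (by omega), if_neg (by omega), if_neg (by omega), if_pos rfl]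

lemma wd_alpha (l : Fin w) {i : ℕ} (hi : i < 2 * n) :
    wd w s n m α g X Sg (2 ^ w + s + 2 + 2 ^ (l : ℕ) * (2 * n) + i) = α l i := by
  have hl : 2 ^ (l : ℕ) < 2 ^ w := Nat.pow_lt_pow_right (by norm_num) l.isLt
  have h1 : 2 ^ (l : ℕ) * (2 * n) + i < 2 ^ w * (2 * n) := by
    have : (2 ^ (l : ℕ) + 1) * (2 * n) ≤ 2 ^ w * (2 * n) := Nat.mul_le_mul_right _ hl
    nlinarith
  have e : 2 ^ w + s + 2 + 2 ^ (l : ℕ) * (2 * n) + i - (2 ^ w + s + 2) = i + 2 ^ (l : ℕ) * (2 * n) := by
    omega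
  unfold wd
  rw [if_neg (by omega), if_neg (by omega), if_neg (by omega), if_neg (by omega), e, if_pos (by omega),
    Nat.add_mul_div_right _ _ (by omega), Nat.div_eq_of_lt hi, zero_add, Nat.add_mul_mod_self_right,
    Nat.mod_eq_of_lt hi]
  by_cases hα : α l i = true
  · rw [hα, decide_eq_true_eq]; exact ⟨l, rfl, hα⟩
  · rw [Bool.not_eq_true] at hα
    rw [hα, decide_eq_false_iff_not]
    rintro ⟨l', h2, h3⟩
    have : (l : ℕ) = l' := Nat.pow_right_injective (le_refl 2) h2
    have : l = l' := Fin.ext this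
    subst this
    rw [hα] at h3
    exact absurd h3 (by simp)

lemma wd_table {j v : ℕ} (hj : j < m) (hv : v < 2 ^ w) :
    wd w s n m α g X Sg (2 ^ w + s + 2 + 2 ^ w * (2 * n) + j * 2 ^ w + v) =
      g j (fun l => v.testBit l) := by
  have h1 : j * 2 ^ w + v < m * 2 ^ w := by
    have : (j + 1) * 2 ^ w ≤ m * 2 ^ w := Nat.mul_le_mul_right _ hj
    nlinarith
  have e0 : 2 ^ w + s + 2 + 2 ^ w * (2 * n) + j * 2 ^ w + v - (2 ^ w + s + 2) =
      2 ^ w * (2 * n) + (v + j * 2 ^ w) := by omega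
  have e : 2 ^ w * (2 * n) + (v + j * 2 ^ w) - 2 ^ w * (2 * n) = v + j * 2 ^ w := by omega
  unfold wd
  rw [if_neg (by omega), if_neg (by omega), if_neg (by omega), if_neg (by omega), e0,
    if_neg (by omega), e, if_pos (by omega),
    Nat.add_mul_div_right _ _ (by positivity), Nat.div_eq_of_lt hv, zero_add, Nat.add_mul_mod_self_right,
    Nat.mod_eq_of_lt hv]

lemma wd_blk {b i : ℕ} (hb : b < 2 ^ w) (hi : i < n + m) :
    wd w s n m α g X Sg (2 ^ w + s + 2 + 2 ^ w * (2 * n) + m * 2 ^ w + b * (n + m) + i) =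
      if i < n then X b i else Sg b (i - n) := by
  have h1 : b * (n + m) + i < 2 ^ w * (n + m) := by
    have : (b + 1) * (n + m) ≤ 2 ^ w * (n + m) := Nat.mul_le_mul_right _ hb
    nlinarith
  have e0 : 2 ^ w + s + 2 + 2 ^ w * (2 * n) + m * 2 ^ w + b * (n + m) + i - (2 ^ w + s + 2) =
      2 ^ w * (2 * n) + (m * 2 ^ w + (i + b * (n + m))) := by omega
  have e : 2 ^ w * (2 * n) + (m * 2 ^ w + (i + b * (n + m))) - 2 ^ w * (2 * n) =
      m * 2 ^ w + (i + b * (n + m)) := by omega
  have e2 : m * 2 ^ w + (i + b * (n + m)) - m * 2 ^ w = i + b * (n + m) := by omega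
  unfold wd
  rw [if_neg (by omega), if_neg (by omega), if_neg (by omega), if_neg (by omega), e0,
    if_neg (by omega), e, if_neg (by omega), e2, if_pos (by omega),
    Nat.add_mul_div_right _ _ (by omega), Nat.div_eq_of_lt hi, zero_add, Nat.add_mul_mod_self_right,
    Nat.mod_eq_of_lt hi]

/-- bits of a word given by a function -/
lemma bit_ofFn {N : ℕ} (Y : ℕ → Bool) {p : ℕ} (hp : p < N) :
    bit (List.ofFn (fun i : Fin N => Y i)) p = (Y p).toNat := by
  unfold bit
  rw [List.getD_eq_getElem _ _ (by simpa using hp)]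
  simp

lemma run_eq {y : List Bool} {a r : ℕ} (hr : r < y.length) (h1 : ∀ i < r, bit y (a + i) = 1)
    (h0 : bit y (a + r) = 0) : run y a = r := by
  unfold run
  have : (Finset.range y.length).filter (fun i => ∀ i' ≤ i, bit y (a + i') = 1) = Finset.range r := by
    ext i
    rw [Finset.mem_filter, Finset.mem_range, Finset.mem_range]
    constructor
    · rintro ⟨_, h⟩
      by_contra hcon
      push Not at hcon
      have := h r hcon
      omega
    · intro hi
      exact ⟨by omega, fun i' hi' => h1 i' (by omega)⟩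
  rw [this, Finset.card_range]

section
variable {N : ℕ}

/-- the word as a list -/
def wl (N w s n m : ℕ) (α : Fin w → ℕ → Bool) (g : ℕ → (Fin w → Bool) → Bool)
    (X Sg : ℕ → ℕ → Bool) : List Bool := List.ofFn (fun i : Fin N => wd w s n m α g X Sg i)

lemma wl_length : (wl N w s n m α g X Sg).length = N := by simp [wl]

lemma wl_pT (hN : 2 ^ w < N) : pT (wl N w s n m α g X Sg) = 2 ^ w := by
  apply run_eq
  · rw [wl_length]; exact hN
  · intro i hi
    rw [zero_add]
    unfold wl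
    rw [bit_ofFn _ (by omega), wd_one hi]; rfl
  · rw [zero_add]
    unfold wl
    rw [bit_ofFn _ hN, wd_zero]; rfl

lemma wl_pS (hN : 2 ^ w + s + 2 ≤ N) : pS (wl N w s n m α g X Sg) = s := by
  unfold pS
  rw [wl_pT (show 2 ^ w < N by omega)]
  have hT := Nat.two_pow_pos w
  apply run_eq
  · rw [wl_length]; omega
  · intro i hi
    have hp : 2 ^ w + 1 + i < N := by omega
    unfold wl
    rw [bit_ofFn _ hp, wd_one' (by omega) (by omega)]; rfl
  · have hp : 2 ^ w + 1 + s < N := by omega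
    unfold wl
    rw [bit_ofFn _ hp, wd_zero']; rfl

lemma wl_pn (hN : 2 ^ w + s + 2 ≤ N) :
    pn (wl N w s n m α g X Sg) = (N - (2 ^ w + s + 2)) / (5 * 2 ^ w) := by
  unfold pn off0
  rw [wl_length, wl_pT (show 2 ^ w < N by omega), wl_pS hN]

theorem lang_wl (hs : 1 ≤ s) (hN : 2 ^ w + s + 2 ≤ N) (hn : n = (N - (2 ^ w + s + 2)) / (5 * 2 ^ w))
    (hn1 : 1 ≤ n) (hm : m = n / s) :
    Lang (wl N w s n m α g X Sg) ↔
      ∀ b < 2 ^ w, ∀ j < m, g j (hpar α j (fun i : Fin n => X b i)) = Sg b j := by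
  have e1 := wl_pT (w := w) (s := s) (n := n) (m := m) (α := α) (g := g) (X := X) (Sg := Sg)
    (show 2 ^ w < N by omega)
  have e2 := wl_pS (w := w) (s := s) (n := n) (m := m) (α := α) (g := g) (X := X) (Sg := Sg) hN
  have e3 := wl_pn (w := w) (s := s) (n := n) (m := m) (α := α) (g := g) (X := X) (Sg := Sg) hN
  rw [← hn] at e3
  have hmn : m ≤ n := by rw [hm]; exact Nat.div_le_self _ _
  have hTpos : 0 < 2 ^ w := by positivity
  -- all positions are inside the word
  have hlen : 2 ^ w + s + 2 + 5 * 2 ^ w * n ≤ N := by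
    have h1 : n * (5 * 2 ^ w) ≤ N - (2 ^ w + s + 2) := by rw [hn]; exact Nat.div_mul_le_self _ _
    have h2 : 5 * 2 ^ w * n = n * (5 * 2 ^ w) := by ring
    omega
  have hTn : 2 ^ w * (2 * n) + m * 2 ^ w + 2 ^ w * (n + m) ≤ 5 * 2 ^ w * n := by
    have h3 : 2 ^ w * m ≤ 2 ^ w * n := Nat.mul_le_mul_left _ hmn
    nlinarith
  have hpA : ∀ (l : Fin w) (i : ℕ), i < 2 * n → bit (wl N w s n m α g X Sg)
      (posA (wl N w s n m α g X Sg) (2 ^ (l : ℕ)) i) = (α l i).toNat := by
    intro l i hi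
    unfold posA off0
    rw [e1, e2, e3]
    have hl : 2 ^ (l : ℕ) < 2 ^ w := Nat.pow_lt_pow_right (by norm_num) l.isLt
    have h1 : 2 ^ (l : ℕ) * (2 * n) + i < 2 ^ w * (2 * n) := by
      have : (2 ^ (l : ℕ) + 1) * (2 * n) ≤ 2 ^ w * (2 * n) := Nat.mul_le_mul_right _ hl
      nlinarith
    unfold wl
    rw [bit_ofFn _ (by omega), wd_alpha l hi]
  have hpG : ∀ j v, j < m → v < 2 ^ w → bit (wl N w s n m α g X Sg)
      (posG (wl N w s n m α g X Sg) j v) = (g j (fun l => v.testBit l)).toNat := by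
    intro j v hj hv
    unfold posG off0
    rw [e1, e2, e3]
    have h1 : j * 2 ^ w + v < m * 2 ^ w := by
      have : (j + 1) * 2 ^ w ≤ m * 2 ^ w := Nat.mul_le_mul_right _ hj
      nlinarith
    unfold wl
    rw [bit_ofFn _ (by omega), wd_table hj hv]
  have e4 : pm (wl N w s n m α g X Sg) = m := by unfold pm; rw [e3, e2, hm]
  have hblk : ∀ b i, b < 2 ^ w → i < n + m → bit (wl N w s n m α g X Sg)
      (posX (wl N w s n m α g X Sg) b i) = (if i < n then X b i else Sg b (i - n)).toNat := by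
    intro b i hb hi
    unfold posX off0
    rw [e4, e1, e2, e3]
    have h1 : b * (n + m) + i < 2 ^ w * (n + m) := by
      have : (b + 1) * (n + m) ≤ 2 ^ w * (n + m) := Nat.mul_le_mul_right _ hb
      nlinarith
    unfold wl
    rw [bit_ofFn _ (by omega), wd_blk hb hi]
  have hpar' : ∀ b j (l : Fin w), b < 2 ^ w → j < m →
      par (wl N w s n m α g X Sg) b j (2 ^ (l : ℕ)) = (hpar α j (fun i : Fin n => X b i) l).toNat := by
    intro b j l hb hj
    unfold par hpar
    rw [e3]
    have h1 : ∑ i ∈ Finset.range n, bit (wl N w s n m α g X Sg)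
        (posA (wl N w s n m α g X Sg) (2 ^ (l : ℕ)) (i + j)) * bit (wl N w s n m α g X Sg)
        (posX (wl N w s n m α g X Sg) b i) = ∑ i : Fin n, (α l (i + j)).toNat * (X b i).toNat := by
      rw [Finset.sum_range]
      refine Finset.sum_congr rfl fun i _ => ?_
      rw [hpA l (i + j) (by have := i.isLt; omega), hblk b i hb (by have := i.isLt; omega),
        if_pos i.isLt]
    rw [h1]
    rcases Nat.mod_two_eq_zero_or_one (∑ i : Fin n, (α l (i + j)).toNat * (X b i).toNat) with h | h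
    · rw [h]; rfl
    · rw [h]; rfl
  unfold Lang
  rw [e1, e4]
  constructor
  · intro h b hb j hj
    set f := hpar α j (fun i : Fin n => X b i) with hf
    have hv : Nat.ofBits f < 2 ^ w := Nat.ofBits_lt_two_pow f
    have h1 := h b hb j hj (Nat.ofBits f) hv (by
      rintro q hq ⟨l, rfl⟩
      have hl : l < w := (Nat.pow_lt_pow_iff_right (by norm_num)).mp hq
      rw [hpar' b j ⟨l, hl⟩ hb hj, ← hf]
      have h2 := Nat.testBit_ofBits_lt f l hl
      rw [Nat.testBit_eq_decide_div_mod_eq] at h2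
      rcases Nat.mod_two_eq_zero_or_one (Nat.ofBits f / 2 ^ l) with h3 | h3
      · rw [h3] at h2 ⊢
        rw [← h2]; rfl
      · rw [h3] at h2 ⊢
        rw [← h2]; rfl)
    rw [hpG j _ hj hv] at h1
    unfold posS at h1
    rw [e3, hblk b (n + j) hb (by omega), if_neg (by omega), show n + j - n = j by omega] at h1
    have h3 : (fun l : Fin w => (Nat.ofBits f).testBit l) = f := by
      funext l
      exact Nat.testBit_ofBits_lt f l l.isLt
    rw [h3] at h1
    revert h1
    cases g j f <;> cases Sg b j <;> simp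
  · intro h b hb j hj v hv hcond
    rw [hpG j v hj hv]
    unfold posS
    rw [e3, hblk b (n + j) hb (by omega), if_neg (by omega), show n + j - n = j by omega, ← h b hb j hj]
    congr 2
    funext l
    have h1 := hcond (2 ^ (l : ℕ)) (Nat.pow_lt_pow_right (by norm_num) l.isLt) ⟨l, rfl⟩
    rw [hpar' b j l hb hj] at h1
    rw [Nat.testBit_eq_decide_div_mod_eq, h1]
    cases hpar α j (fun i : Fin n => X b i) l <;> rfl

end

end Pool.Agent.KNL
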