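import Pool.Agent.KNL.Res
import Pool.Agent.KNL.Word

/-! The reduction of the lower bound for the language to programs on one block. -/

namespace Pool.Agent.KNL

open Pool.Agent.SemRO

/-- what piece (N) has to provide -/
def NbpCore (k : ℕ) : Prop := ∃ (R : ℕ) (ε : ℝ) (n0 : ℕ), 2 ≤ R ∧ 0 < ε ∧ ∀ n, n0 ≤ n →
  ∀ (V : Type) [Fintype V] (P : NBP V (Fin n)) (F : Set (Fin n → Bool)) (L : ℕ),
    (∀ x l, P.Path x P.src P.acc l → x ∈ F) → RectFree F L → (L : ℝ) ≤ Real.exp (ε * n) →
    ∀ (W : Finset (Fin n → Bool)),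
      (∀ x ∈ W, ∃ l, P.Path x P.src P.acc l ∧ l.length ≤ k * n) →
      (W.card : ℝ) ≤ (Fintype.card V : ℝ) ^ (R - 1) * (2 ^ n * Real.exp (-(ε * n)))

/-- extension of a family of vectors to all indices -/
def ext {T n : ℕ} (X : Fin T → Fin n → Bool) (b i : ℕ) : Bool :=
  if h : b < T ∧ i < n then X ⟨b, h.1⟩ ⟨i, h.2⟩ else false

lemma ext_val {T n : ℕ} (X : Fin T → Fin n → Bool) {b i : ℕ} (hb : b < T) (hi : i < n) :
    ext X b i = X ⟨b, hb⟩ ⟨i, hi⟩ := by
  unfold ext; rw [dif_pos ⟨hb, hi⟩]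

lemma ext_fun {T n : ℕ} (X : Fin T → Fin n → Bool) {b : ℕ} (hb : b < T) :
    (fun i : Fin n => ext X b i) = X ⟨b, hb⟩ := by
  funext i
  rw [ext_val X hb i.isLt]

/-- hash values of a family of vectors -/
def sg {w T n : ℕ} (α : Fin w → ℕ → Bool) (g : ℕ → (Fin w → Bool) → Bool)
    (X : Fin T → Fin n → Bool) (b j : ℕ) : Bool :=
  if h : b < T then hbit α g j (X ⟨b, h⟩) else false

lemma sg_val {w T n : ℕ} (α : Fin w → ℕ → Bool) (g : ℕ → (Fin w → Bool) → Bool)
    (X : Fin T → Fin n → Bool) {b : ℕ} (hb : b < T) (j : ℕ) :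
    sg α g X b j = hbit α g j (X ⟨b, hb⟩) := by
  unfold sg; rw [dif_pos hb]

/-- the variables of a block that starts at `a` -/
def ob (N n a : ℕ) (p : Fin N) : Option (Fin n) :=
  if h : a ≤ p ∧ (p : ℕ) - a < n then some ⟨p - a, h.2⟩ else none

lemma sum_cnt_le {T N n : ℕ} (o : Fin T → Fin N → Option (Fin n))
    (hd : ∀ b b' p, (o b p).isSome → (o b' p).isSome → b = b') (l : List (Fin N)) :
    ∑ b, cnt (o b) l ≤ l.length := by
  induction l with
  | nil => simp [cnt]
  | cons a l ih =>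
    have h : ∀ b, cnt (o b) (a :: l) = cnt (o b) l + if (o b a).isSome then 1 else 0 := by
      intro b
      unfold cnt
      rw [List.filter_cons]
      split_ifs <;> simp
    simp_rw [h, Finset.sum_add_distrib, List.length_cons]
    have h1 : ∑ b, (if (o b a).isSome then 1 else 0) ≤ 1 := by
      rw [← Finset.card_filter, Finset.card_le_one]
      intro b hb b' hb'
      exact hd b b' a (Finset.mem_filter.mp hb).2 (Finset.mem_filter.mp hb').2
    omega

/-- some block is tested rarely -/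
lemma exists_rare {T N n K : ℕ} (hT : 0 < T) (o : Fin T → Fin N → Option (Fin n))
    (hd : ∀ b b' p, (o b p).isSome → (o b' p).isSome → b = b') (l : List (Fin N))
    (hl : l.length ≤ K) : ∃ b, cnt (o b) l * T ≤ K := by
  by_contra hcon
  push Not at hcon
  have h1 : ∑ b : Fin T, K < ∑ b, cnt (o b) l * T :=
    Finset.sum_lt_sum_of_nonempty ⟨⟨0, hT⟩, Finset.mem_univ _⟩ fun b _ => hcon b
  rw [Finset.sum_const, Finset.card_univ, Fintype.card_fin, smul_eq_mul, ← Finset.sum_mul] at h1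
  have h2 := sum_cnt_le o hd l
  have h3 : (∑ b, cnt (o b) l) * T ≤ K * T := Nat.mul_le_mul_right _ (le_trans h2 hl)
  rw [mul_comm K T] at h3
  omega

/-- Starting position of block `b`. -/
def bs (w s n m b : ℕ) : ℕ := 2 ^ w + s + 2 + 2 ^ w * (2 * n) + m * 2 ^ w + b * (n + m)

lemma wd_congr {w s n m : ℕ} {α : Fin w → ℕ → Bool} {g : ℕ → (Fin w → Bool) → Bool}
    {X X' Sg Sg' : ℕ → ℕ → Bool} {p : ℕ}
    (h1 : ∀ b i, b < 2 ^ w → i < n → p = bs w s n m b + i → X b i = X' b i)
    (h2 : ∀ b j, b < 2 ^ w → j < m → Sg b j = Sg' b j) :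
    wd w s n m α g X Sg p = wd w s n m α g X' Sg' p := by
  unfold wd
  split_ifs with a1 a2 a3 a4 a5 a6 a7 a8
  · rfl
  · rfl
  · rfl
  · rfl
  · rfl
  · rfl
  · have hpos : 0 < n + m := by
      rcases Nat.eq_zero_or_pos (n + m) with h | h
      · rw [h] at a7; simp at a7
      · exact h
    refine h1 _ _ ?_ a8 ?_
    · exact (Nat.div_lt_iff_lt_mul hpos).mpr a7
    · have h3 := Nat.div_add_mod (p - (2 ^ w + s + 2) - 2 ^ w * (2 * n) - m * 2 ^ w) (n + m)
      unfold bs
      rw [mul_comm (n + m)] at h3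
      omega
  · have hpos : 0 < n + m := by
      rcases Nat.eq_zero_or_pos (n + m) with h | h
      · rw [h] at a7; simp at a7
      · exact h
    refine h2 _ _ ?_ ?_
    · exact (Nat.div_lt_iff_lt_mul hpos).mpr a7
    · have := Nat.mod_lt (p - (2 ^ w + s + 2) - 2 ^ w * (2 * n) - m * 2 ^ w) hpos
      omega
  · rfl

/-- pasting a vector into block `b0` -/
lemma paste_wd {w s n m N : ℕ} {α : Fin w → ℕ → Bool} {g : ℕ → (Fin w → Bool) → Bool}
    {Sg : ℕ → ℕ → Bool} (b0 : Fin (2 ^ w)) (X0 : Fin (2 ^ w) → Fin n → Bool) (x : Fin n → Bool) :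
    paste (ob N n (bs w s n m b0)) (fun p : Fin N => wd w s n m α g (ext X0) Sg p) x =
      fun p : Fin N => wd w s n m α g (ext (Function.update X0 b0 x)) Sg p := by
  funext p
  by_cases hp : bs w s n m b0 ≤ p ∧ (p : ℕ) - bs w s n m b0 < n
  · rw [paste_some (a := ⟨p - bs w s n m b0, hp.2⟩) (by unfold ob; rw [dif_pos hp])]
    have e : bs w s n m b0 + (p - bs w s n m b0) = p := by omega
    have h1 : wd w s n m α g (ext (Function.update X0 b0 x)) Sg
        (bs w s n m b0 + (p - bs w s n m b0)) = _ :=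
      wd_blk (w := w) (s := s) (n := n) (m := m) (α := α) (g := g)
        (X := ext (Function.update X0 b0 x)) (Sg := Sg) (b := b0) (i := p - bs w s n m b0) b0.isLt
        (by omega)
    rw [if_pos hp.2, e, ext_val _ b0.isLt hp.2] at h1
    rw [h1]
    simp
  · rw [paste_none (by unfold ob; rw [dif_neg hp])]
    refine wd_congr ?_ fun _ _ _ _ => rfl
    intro b i hb hi hpe
    rw [ext_val _ hb hi, ext_val _ hb hi, Function.update_of_ne]
    intro h
    apply hp
    have : b = b0 := by rw [← h]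
    rw [this] at hpe
    omega

lemma ob_disj {w s n m N : ℕ} (b b' : Fin (2 ^ w)) (p : Fin N)
    (h : (ob N n (bs w s n m b) p).isSome) (h' : (ob N n (bs w s n m b') p).isSome) : b = b' := by
  unfold ob at h h'
  split_ifs at h h' with h1 h2
  · unfold bs at h1 h2
    have key : ∀ c c' : ℕ, c < c' → c' * (n + m) ≥ c * (n + m) + (n + m) := by
      intro c c' hc
      have : (c + 1) * (n + m) ≤ c' * (n + m) := Nat.mul_le_mul_right _ hc
      linarith [this, Nat.succ_mul c (n + m)]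
    rcases Nat.lt_trichotomy (b : ℕ) b' with hlt | heq | hlt
    · have := key _ _ hlt
      omega
    · exact Fin.ext heq
    · have := key _ _ hlt
      omega
  all_goals simp at h h'

/-- numbers: choice of a popular block, of the other blocks and of the hash value -/
lemma choose_fiber {T w n m q : ℕ} (hT : T = 2 ^ w) (hwm : q + w + m ≤ n)
    (G : Finset (Fin T → Fin n → Bool)) (hG : 2 ^ (n * T - q) ≤ G.card)
    (β : (Fin T → Fin n → Bool) → Fin T) (h : (Fin n → Bool) → ℕ → Bool) :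
    ∃ (b0 : Fin T) (X0 : Fin T → Fin n → Bool) (W : Finset (Fin n → Bool)),
      2 ^ (n - q - w - m) ≤ W.card ∧ ∀ x ∈ W, Function.update X0 b0 x ∈ G ∧
        β (Function.update X0 b0 x) = b0 ∧ ∀ j < m, h x j = h (X0 b0) j := by
  classical
  have hTpos : 0 < T := by rw [hT]; positivity
  have : Nonempty (Fin T) := ⟨⟨0, hTpos⟩⟩
  have hnT : n ≤ n * T := Nat.le_mul_of_pos_right _ hTpos
  obtain ⟨b0, _, hb0⟩ := Finset.exists_le_card_fiber_of_mul_le_card_of_maps_to
    (s := G) (t := (Finset.univ : Finset (Fin T)))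
    (f := β) (n := 2 ^ (n * T - q - w)) (fun _ _ => Finset.mem_univ _) Finset.univ_nonempty (by
      refine le_trans ?_ hG
      rw [Finset.card_univ, Fintype.card_fin, hT, ← pow_add]
      exact Nat.pow_le_pow_right (by norm_num) (by rw [← hT]; omega))
  have hcardr : Fintype.card ({j : Fin T // j ≠ b0} → Fin n → Bool) = 2 ^ (n * (T - 1)) := by
    rw [Fintype.card_fun, Fintype.card_fun, Fintype.card_bool, Fintype.card_fin, ← pow_mul]
    congr 2
    rw [Fintype.card_subtype_compl, Fintype.card_fin, Fintype.card_subtype_eq]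
  obtain ⟨⟨r, σ⟩, _, hrσ⟩ := Finset.exists_le_card_fiber_of_mul_le_card_of_maps_to
    (s := G.filter (fun X => β X = b0))
    (t := (Finset.univ : Finset (({j : Fin T // j ≠ b0} → Fin n → Bool) × (Fin m → Bool))))
    (f := fun X => (fun j => X j, fun j => h (X b0) j)) (n := 2 ^ (n - q - w - m))
    (fun _ _ => Finset.mem_univ _) Finset.univ_nonempty (by
      refine le_trans (le_of_eq ?_) hb0
      rw [Finset.card_univ, Fintype.card_prod, hcardr, Fintype.card_fun, Fintype.card_bool,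
        Fintype.card_fin, ← pow_add, ← pow_add]
      congr 1
      obtain ⟨T', rfl⟩ : ∃ T', T = T' + 1 := ⟨T - 1, by omega⟩
      rw [Nat.add_sub_cancel, Nat.mul_succ]
      omega)
  set Wt := (G.filter (fun X => β X = b0)).filter
    (fun X => ((fun j : {j : Fin T // j ≠ b0} => X j, fun j : Fin m => h (X b0) j) :
      ({j : Fin T // j ≠ b0} → Fin n → Bool) × (Fin m → Bool)) = (r, σ)) with hWt
  have hne : Wt.Nonempty := by
    rw [← Finset.card_pos]
    exact lt_of_lt_of_le (by positivity) hrσ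
  obtain ⟨X0, hX0⟩ := hne
  have hmem : ∀ X ∈ Wt, X ∈ G ∧ β X = b0 ∧ (∀ j, j ≠ b0 → X j = X0 j) ∧
      ∀ j < m, h (X b0) j = h (X0 b0) j := by
    intro X hX
    rw [hWt, Finset.mem_filter, Finset.mem_filter, Prod.mk.injEq] at hX hX0
    refine ⟨hX.1.1, hX.1.2, fun j hj => ?_, fun j hj => ?_⟩
    · have := congrFun (hX.2.1.trans hX0.2.1.symm) ⟨j, hj⟩
      exact this
    · have := congrFun (hX.2.2.trans hX0.2.2.symm) ⟨j, hj⟩
      exact this
  have hupd : ∀ X ∈ Wt, Function.update X0 b0 (X b0) = X := by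
    intro X hX
    funext j
    by_cases hj : j = b0
    · subst hj; simp
    · rw [Function.update_of_ne hj, (hmem X hX).2.2.1 j hj]
  refine ⟨b0, X0, Wt.image (fun X => X b0), ?_, ?_⟩
  · rw [Finset.card_image_of_injOn]
    · exact hrσ
    · intro X hX X' hX' he
      rw [← hupd X hX, ← hupd X' hX']
      simp only at he
      rw [he]
  · intro x hx
    obtain ⟨X, hX, rfl⟩ := Finset.mem_image.mp hx
    rw [hupd X hX]
    exact ⟨(hmem X hX).1, (hmem X hX).2.1, (hmem X hX).2.2.2⟩

end Pool.Agent.KNL
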