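import Pool.Agent.KN.Core
import Pool.Agent.SemRO.Nbp
import Pool.Agent.KNL.Main

/-! The core bound for nondeterministic branching programs on one block. -/

namespace Pool.Agent.KNL

open Finset Pool.Agent.SemRO

variable {V : Type} {n : ℕ}

/-- a walk with at most `R q` tests, cut into `R` pieces with at most `q` tests each -/
lemma exists_cuts {I : Type} {P : NBP V I} {z : I → Bool} (q : ℕ) : ∀ (R : ℕ) {u v : V} {l : List I},
    P.Path z u v l → l.length ≤ (R + 1) * q →
    ∃ m : ℕ → V, m 0 = u ∧ m (R + 1) = v ∧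
      ∀ j < R + 1, ∃ l', P.Path z (m j) (m (j + 1)) l' ∧ l'.length ≤ q := by
  intro R
  induction R with
  | zero =>
    intro u v l h hl
    refine ⟨fun j => if j = 0 then u else v, by simp, by simp, ?_⟩
    intro j hj
    have : j = 0 := by omega
    subst this
    exact ⟨l, by simpa using h, by simpa using hl⟩
  | succ R ih =>
    intro u v l h hl
    obtain ⟨m, h1, h2⟩ := Path.split h q
    obtain ⟨m', e0, e1, hm'⟩ := ih h2 (by
      rw [List.length_drop]
      have : (R + 1 + 1) * q = (R + 1) * q + q := by ring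
      omega)
    refine ⟨fun j => if j = 0 then u else m' (j - 1), by simp, by simpa using e1, ?_⟩
    intro j hj
    rcases Nat.eq_zero_or_pos j with h0 | hpos
    · subst h0
      refine ⟨l.take q, ?_, by simp⟩
      simpa [e0] using h1
    · obtain ⟨i, rfl⟩ : ∃ i, j = i + 1 := ⟨j - 1, by omega⟩
      obtain ⟨l', hl', hq⟩ := hm' i (by omega)
      exact ⟨l', by simpa using hl', hq⟩

/-- the cut nodes, with the source first and the accepting node last -/
def node {I : Type} (P : NBP V I) {r : ℕ} (c : Fin r → V) (j : ℕ) : V :=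
  if j = 0 then P.src else if h : j - 1 < r then c ⟨j - 1, h⟩ else P.acc

/-- the families attached to the cut nodes -/
def Fm (P : NBP V (Fin n)) {r : ℕ} (q : ℕ) (c : Fin r → V) (j : ℕ) : Set (Fin n → Option Bool) :=
  {t | (dom t).card ≤ q ∧ PReach P t (node P c j) (node P c (j + 1))}

lemma path_of_fm {P : NBP V (Fin n)} {r q : ℕ} {c : Fin r → V} {z : Fin n → Bool}
    (hz : ∀ j, j < r + 1 → ∃ t ∈ Fm P q c j, Sub t z) : ∃ l, P.Path z P.src P.acc l := by
  have key : ∀ j, j ≤ r + 1 → ∃ l, P.Path z P.src (node P c j) l := by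
    intro j
    induction j with
    | zero => intro _; exact ⟨[], by simpa [node] using NBP.Path.nil P.src⟩
    | succ j ih =>
      intro hj
      obtain ⟨l, hl⟩ := ih (by omega)
      obtain ⟨t, ⟨_, ht⟩, hs⟩ := hz j (by omega)
      obtain ⟨l', hl'⟩ := PReach.path ht hs
      exact ⟨_, Pool.Agent.SemRO.Path.trans hl hl'⟩
  obtain ⟨l, hl⟩ := key (r + 1) le_rfl
  refine ⟨l, ?_⟩
  have : node P c (r + 1) = P.acc := by simp [node]
  rwa [this] at hl

lemma fm_of_path {P : NBP V (Fin n)} {r q : ℕ} {z : Fin n → Bool} {l : List (Fin n)}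
    (hp : P.Path z P.src P.acc l) (hl : l.length ≤ (r + 1) * q) :
    ∃ c : Fin r → V, ∀ j, j < r + 1 → ∃ t ∈ Fm P q c j, Sub t z := by
  classical
  obtain ⟨m, h0, h1, hm⟩ := exists_cuts q r hp hl
  refine ⟨fun i => m (i + 1), ?_⟩
  have hnode : ∀ j, j ≤ r + 1 → node P (fun i : Fin r => m (i + 1)) j = m j := by
    intro j hj
    unfold node
    split_ifs with a b
    · rw [a, h0]
    · have : j - 1 + 1 = j := by omega
      simp only [this]
    · have : j = r + 1 := by omega
      rw [this, h1]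
  intro j hj
  obtain ⟨l', hl', hq⟩ := hm j hj
  refine ⟨restr l'.toFinset z, ⟨?_, ?_⟩, sub_restr _ _⟩
  · rw [dom_restr]
    exact (List.toFinset_card_le l').trans hq
  · rw [hnode j (by omega), hnode (j + 1) (by omega)]
    exact Path.preach hl' _ fun i hi => List.mem_toFinset.mpr hi

theorem nbp_core (k : ℕ) : NbpCore k := by
  classical
  obtain ⟨R, ε, n0, hR2, hε, hcore⟩ := Pool.Agent.KN.core (k + 1)
  obtain ⟨r, rfl⟩ : ∃ r, R = r + 1 := ⟨R - 1, by omega⟩
  refine ⟨r + 1, ε, max n0 (r + 1), hR2, hε, ?_⟩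
  intro n hn V _ P F L hF hRf hL W hW
  have hn0 : n0 ≤ n := (le_max_left _ _).trans hn
  have hnr : r + 1 ≤ n := (le_max_right _ _).trans hn
  obtain ⟨q, hq⟩ : ∃ q, q = k * n / (r + 1) + 1 := ⟨_, rfl⟩
  have hq1 : k * n ≤ (r + 1) * q := by
    rw [hq]
    have h1 := Nat.div_add_mod (k * n) (r + 1)
    have h2 : k * n % (r + 1) < r + 1 := Nat.mod_lt (k * n) (Nat.succ_pos r)
    have h3 : (r + 1) * (k * n / (r + 1) + 1) = (r + 1) * (k * n / (r + 1)) + (r + 1) := by ring
    rw [h3]
    omega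
  have hq2 : q * (r + 1) ≤ (k + 1) * n := by
    rw [hq]
    have h1 := Nat.div_mul_le_self (k * n) (r + 1)
    have h3 : (k * n / (r + 1) + 1) * (r + 1) = (k * n / (r + 1)) * (r + 1) + (r + 1) := by ring
    have h4 : (k + 1) * n = k * n + n := by ring
    rw [h3, h4]
    omega
  have hcut : ∀ c : Fin r → V,
      ((W.filter (fun z => ∀ j, j < r + 1 → ∃ t ∈ Fm P q c j, Sub t z)).card : ℝ) ≤
        2 ^ n * Real.exp (-(ε * n)) := by
    intro c
    by_contra hcon
    push Not at hcon
    obtain ⟨Wc, hWc⟩ : ∃ Wc, Wc = W.filter (fun z => ∀ j, j < r + 1 → ∃ t ∈ Fm P q c j, Sub t z) :=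
      ⟨_, rfl⟩
    rw [← hWc] at hcon
    have hmem : ∀ z ∈ Wc, ∀ j, j < r + 1 → ∃ t ∈ Fm P q c j, Sub t z := by
      intro z hz
      rw [hWc] at hz
      exact (Finset.mem_filter.mp hz).2
    refine hcore n hn0 Wc (fun j z => firstTerm (Fm P q c j) z) F L ?_ ?_ ?_ ?_ ?_ hL hRf
    · have h1 := Real.log_le_log (by positivity) hcon.le
      rw [Real.log_mul (by positivity) (Real.exp_pos _).ne', Real.log_exp, Real.log_pow] at h1
      linarith
    · intro z hz j
      exact (firstTerm_spec (hmem z hz j j.isLt)).2.1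
    · intro z hz z' hz' j h1 h2
      obtain ⟨a1, a2, a3⟩ := firstTerm_spec (hmem z hz j j.isLt)
      obtain ⟨b1, b2, b3⟩ := firstTerm_spec (hmem z' hz' j j.isLt)
      have e1 := a3 _ b1 h1
      have e2 := b3 _ a1 h2
      exact (Fintype.equivFin _).injective (Fin.ext (le_antisymm e1 e2))
    · intro z hz j
      have h1 := (firstTerm_spec (hmem z hz j j.isLt)).1.1
      exact (Nat.mul_le_mul_right _ h1).trans hq2
    · intro u hu
      have h1 : ∀ j, j < r + 1 → ∃ t ∈ Fm P q c j, Sub t u := by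
        intro j hj
        obtain ⟨w, hw, hs⟩ := hu ⟨j, hj⟩
        exact ⟨_, (firstTerm_spec (hmem w hw j hj)).1, hs⟩
      obtain ⟨l, hl⟩ := path_of_fm h1
      exact hF u l hl
  have hsub : W ⊆ (Finset.univ : Finset (Fin r → V)).biUnion
      (fun c => W.filter (fun z => ∀ j, j < r + 1 → ∃ t ∈ Fm P q c j, Sub t z)) := by
    intro z hz
    obtain ⟨l, hl1, hl2⟩ := hW z hz
    obtain ⟨c, hc⟩ := fm_of_path hl1 (hl2.trans hq1)
    exact Finset.mem_biUnion.mpr ⟨c, Finset.mem_univ _, Finset.mem_filter.mpr ⟨hz, hc⟩⟩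
  calc (W.card : ℝ)
      ≤ ((∑ c : Fin r → V,
          (W.filter (fun z => ∀ j, j < r + 1 → ∃ t ∈ Fm P q c j, Sub t z)).card : ℕ) : ℝ) := by
        exact_mod_cast (Finset.card_le_card hsub).trans Finset.card_biUnion_le
    _ = ∑ c : Fin r → V,
          ((W.filter (fun z => ∀ j, j < r + 1 → ∃ t ∈ Fm P q c j, Sub t z)).card : ℝ) := by
        push_cast; rfl
    _ ≤ ∑ c : Fin r → V, 2 ^ n * Real.exp (-(ε * n)) := Finset.sum_le_sum fun c _ => hcut c
    _ = _ := by
        rw [Finset.sum_const, Finset.card_univ, Fintype.card_fun, Fintype.card_fin, nsmul_eq_mul]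
        push_cast
        rfl

end Pool.Agent.KNL
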