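import Pool.Agent.SemRO.Defs

/-! Fixing all variables outside a block. -/

namespace Pool.Agent.KNL

open Pool.Agent.SemRO

variable {V : Type} {N n : ℕ}

/-- fix the variables `i` with `o i = none` to their value in `base`, rename the others -/
def res (P : NBP V (Fin N)) (o : Fin N → Option (Fin n)) (base : Fin N → Bool) : NBP V (Fin n) where
  src := P.src
  acc := P.acc
  free u v := P.free u v ∨ ∃ i, o i = none ∧ P.test u i (base i) v
  test u a b v := ∃ i, o i = some a ∧ P.test u i b v

/-- the input of `P` given by `x` -/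
def paste (o : Fin N → Option (Fin n)) (base : Fin N → Bool) (x : Fin n → Bool) : Fin N → Bool :=
  fun i => match o i with
    | none => base i
    | some a => x a

lemma paste_none {o : Fin N → Option (Fin n)} {base : Fin N → Bool} {x : Fin n → Bool} {i : Fin N}
    (h : o i = none) : paste o base x i = base i := by
  unfold paste; rw [h]

lemma paste_some {o : Fin N → Option (Fin n)} {base : Fin N → Bool} {x : Fin n → Bool} {i : Fin N}
    {a : Fin n} (h : o i = some a) : paste o base x i = x a := by
  unfold paste; rw [h]

/-- number of tests of the variables with `o i ≠ none` -/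
def cnt (o : Fin N → Option (Fin n)) (l : List (Fin N)) : ℕ := (l.filter (fun i => (o i).isSome)).length

lemma res_of_path {P : NBP V (Fin N)} {o : Fin N → Option (Fin n)} {base : Fin N → Bool}
    {x : Fin n → Bool} {u v : V} {l : List (Fin N)} (h : P.Path (paste o base x) u v l) :
    ∃ l', (res P o base).Path x u v l' ∧ l'.length = cnt o l := by
  induction h with
  | nil u => exact ⟨[], .nil u, rfl⟩
  | free h _ ih =>
    obtain ⟨l', h1, h2⟩ := ih
    exact ⟨l', .free (Or.inl h) h1, h2⟩
  | @test u v w i l h _ ih =>
    obtain ⟨l', h1, h2⟩ := ih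
    cases ho : o i with
    | none =>
      refine ⟨l', .free (Or.inr ⟨i, ho, ?_⟩) h1, ?_⟩
      · rw [paste_none ho] at h; exact h
      · rw [h2]; simp [cnt, ho]
    | some a =>
      refine ⟨a :: l', .test ⟨i, ho, ?_⟩ h1, ?_⟩
      · rw [paste_some ho] at h; exact h
      · rw [List.length_cons, h2]; simp [cnt, ho]

lemma path_of_res {P : NBP V (Fin N)} {o : Fin N → Option (Fin n)} {base : Fin N → Bool}
    {x : Fin n → Bool} {u v : V} {l : List (Fin n)} (h : (res P o base).Path x u v l) :
    ∃ l', P.Path (paste o base x) u v l' := by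
  induction h with
  | nil u => exact ⟨[], .nil u⟩
  | free h _ ih =>
    obtain ⟨l', h1⟩ := ih
    rcases h with h | ⟨i, ho, h⟩
    · exact ⟨l', .free h h1⟩
    · refine ⟨i :: l', .test ?_ h1⟩
      rw [paste_none ho]; exact h
  | test h _ ih =>
    obtain ⟨l', h1⟩ := ih
    obtain ⟨i, ho, h⟩ := h
    refine ⟨i :: l', .test ?_ h1⟩
    rw [paste_some ho]; exact h

end Pool.Agent.KNL
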